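import Mathlib

/-!
# Analytic functions with a derivative which vanishes near a point are polynomials
-/

set_option autoImplicit false

namespace Pool.Agent.W5h30.An

open Finset Real Filter Topology Polynomial

lemma iter_zero_near {g : ℝ → ℝ} {x : ℝ} {m : ℕ} (h : ∀ᶠ t in 𝓝 x, iteratedDeriv m g t = 0) (n : ℕ) :
    ∀ᶠ t in 𝓝 x, iteratedDeriv (m + n) g t = 0 := by
  induction n with
  | zero => exact h
  | succ n ih =>
    have h1 : iteratedDeriv (m + n) g =ᶠ[𝓝 x] fun _ => (0 : ℝ) := ih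
    have h2 := h1.deriv
    filter_upwards [h2] with t ht
    rw [← Nat.add_assoc, iteratedDeriv_succ, ht]
    simp

theorem eq_poly_near {g : ℝ → ℝ} {x : ℝ} (hg : AnalyticAt ℝ g x) {m : ℕ}
    (h : ∀ᶠ t in 𝓝 x, iteratedDeriv m g t = 0) :
    ∃ P : ℝ[X], ∀ᶠ t in 𝓝 x, g t = P.eval t := by
  have h1 := hg.hasFPowerSeriesAt
  have h0 : ∀ n, m ≤ n → iteratedDeriv n g x = 0 := by
    intro n hn
    obtain ⟨k, rfl⟩ := Nat.exists_eq_add_of_le hn
    exact (iter_zero_near h k).self_of_nhds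
  refine ⟨∑ i ∈ Finset.range m, Polynomial.C (iteratedDeriv i g x / i.factorial) *
    (X - Polynomial.C x) ^ i, ?_⟩
  have h2 := h1.eventually_hasSum_sub
  filter_upwards [h2] with t ht
  have h3 : HasSum (fun n : ℕ => (FormalMultilinearSeries.ofScalars ℝ
      (fun n => iteratedDeriv n g x / n.factorial) n) fun _ => t - x)
      (∑ n ∈ Finset.range m, (FormalMultilinearSeries.ofScalars ℝ
      (fun n => iteratedDeriv n g x / n.factorial) n) fun _ => t - x) := by
    apply hasSum_sum_of_ne_finset_zero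
    intro n hn
    rw [Finset.mem_range, not_lt] at hn
    rw [FormalMultilinearSeries.ofScalars_apply_eq, h0 n hn]
    simp
  rw [ht.unique h3, Polynomial.eval_finset_sum]
  refine Finset.sum_congr rfl fun n _ => ?_
  rw [FormalMultilinearSeries.ofScalars_apply_eq]
  simp

theorem not_poly {g : ℝ → ℝ} {u v : ℝ} (hg : AnalyticOnNhd ℝ g (Set.Icc u v))
    (hpol : ∀ P : ℝ[X], ∃ t ∈ Set.Icc u v, g t ≠ P.eval t) (x : ℝ) (hx : x ∈ Set.Icc u v) (m : ℕ) :
    ¬ ∀ᶠ t in 𝓝 x, iteratedDeriv m g t = 0 := by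
  intro h
  obtain ⟨P, hP⟩ := eq_poly_near (hg x hx) h
  obtain ⟨t, ht, hne⟩ := hpol P
  have h1 : AnalyticOnNhd ℝ (fun t => P.eval t) (Set.Icc u v) :=
    (AnalyticOnNhd.eval_polynomial P).mono (Set.subset_univ _)
  have h2 := hg.eqOn_of_preconnected_of_eventuallyEq h1 isPreconnected_Icc hx hP
  exact hne (h2 ht)

end Pool.Agent.W5h30.An
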