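import Pool.Agent.Y933.KD.Fam
import Pool.Agent.Y933.KD.Roots

/-!
# The central limit theorem for families with small Fourier coefficients
-/

set_option autoImplicit false

namespace Pool.Agent.W5h30.An

open Finset Real Filter Topology MeasureTheory ProbabilityTheory
open Pool.Agent.Y933.KD (unif hat Good wd size_freq integral_unif unif_prob clt_gen cv mn)

/-- probability measures with small Fourier coefficients up to a power of `M` -/
def SF (K ρ : ℝ) (M : ℕ) : Set (Measure ℝ) :=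
  {P | IsProbabilityMeasure P ∧ ∀ l : ℤ, l ≠ 0 → |(l : ℝ)| ≤ (M : ℝ) ^ K →
    ‖hat P l‖ ≤ (M : ℝ) ^ (-ρ)}

lemma good_SF {K ρ A : ℝ} {B : ℕ} (hρ : 0 < ρ) (hK : 1 + 1 + A * log B ≤ K) (k : ℕ) :
    Good B k A (SF K ρ) := by
  refine ⟨min ρ 1, by positivity, max k 1, ?_⟩
  intro M hM P hP b n h hb hn hh hne
  have hMk : k ≤ M := (le_max_left _ _).trans hM
  have hM1 : 1 ≤ M := (le_max_right _ _).trans hM
  have hMR : (1 : ℝ) ≤ M := by exact_mod_cast hM1
  have h1 := size_freq hM1 hMk b n h hb hn hh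
  have h2 := hP.2 _ hne (h1.trans (by
    apply Real.rpow_le_rpow_of_exponent_le hMR
    have := min_le_right ρ 1
    linarith))
  refine h2.trans ?_
  apply Real.rpow_le_rpow_of_exponent_le hMR
  have := min_le_left ρ 1
  linarith

open Classical in
/-- the central limit theorem for the digits after the place `s` -/
theorem clt_shift {ι : Type*} {b w : ℕ} (hb : 2 ≤ b) (hw : 1 ≤ w) (F : ℕ → ℝ)
    (hσ : 0 < cv b w F 0 + 2 * ∑ h ∈ Finset.Ico 1 w, cv b w F h) {A K ρ : ℝ} (hρ : 0 < ρ)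
    (hK : 1 + 1 + A * log b ≤ K) (T : ℕ → Finset ι) (y : ℕ → ι → ℝ) (s N : ℕ → ℕ)
    (hT : ∀ᶠ M : ℕ in atTop, (T M).Nonempty)
    (hP : ∀ᶠ M : ℕ in atTop, ∀ l : ℤ, l ≠ 0 → |(l : ℝ)| ≤ (M : ℝ) ^ K →
      ‖∑ m ∈ T M, Pool.Agent.H469R2.NK.e (l * (b : ℝ) ^ s M * y M m)‖ ≤
        (T M).card * (M : ℝ) ^ (-ρ))
    (hN : Tendsto N atTop atTop) (hsN : ∀ᶠ M : ℕ in atTop, (N M : ℝ) ≤ A * log M) (a : ℝ) :
    Tendsto (fun M : ℕ => (((T M).filter (fun m =>
      ∑ i ∈ range (N M), F (wd b w (s M + i) (y M m)) - N M * mn b w F ≤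
        a * √((cv b w F 0 + 2 * ∑ h ∈ Finset.Ico 1 w, cv b w F h) * N M))).card : ℝ) /
        (T M).card) atTop
      (𝓝 ((gaussianReal 0 1).real (Set.Iic a))) := by
  have hshift : ∀ (n s0 : ℕ) (z : ℝ), wd b w n ((b : ℝ) ^ s0 * z) = wd b w (s0 + n) z := by
    intro n s0 z
    unfold wd
    rw [pow_add, ← mul_assoc, mul_comm ((b : ℝ) ^ n)]
  have key := clt_gen (by omega : 1 ≤ b) hw F hσ (S := SF K ρ) (A := A)
    (fun M _ P hP => hP.1) (fun k => good_SF hρ hK k) T (fun M m => (b : ℝ) ^ s M * y M m) (by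
      filter_upwards [hT, hP] with M h1 h2
      refine ⟨h1, unif_prob h1 _, ?_⟩
      intro l hl hl2
      have hcard0 : (0 : ℝ) < (T M).card := by exact_mod_cast h1.card_pos
      unfold hat
      rw [integral_unif, norm_mul, norm_div, norm_one, Complex.norm_natCast, one_div,
        inv_mul_le_iff₀ hcard0]
      refine le_trans (le_of_eq ?_) (h2 l hl hl2)
      congr 1
      refine sum_congr rfl fun m _ => ?_
      rw [← mul_assoc]
      rfl) (fun _ => 0) N hN (by
      filter_upwards [hsN] with M h1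
      simpa using h1) a
  refine key.congr fun M => ?_
  congr 2
  apply congrArg Finset.card
  refine Finset.filter_congr fun m _ => ?_
  have h1 : ∀ i ∈ range (N M), F (wd b w (0 + i) ((b : ℝ) ^ s M * y M m)) =
      F (wd b w (s M + i) (y M m)) := fun i _ => by rw [hshift, Nat.zero_add]
  rw [sum_congr rfl h1]

end Pool.Agent.W5h30.An
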