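import Pool.Agent.W5h30.An.Seq

/-!
# The fractional parts of `n! e` as values of a smooth function
-/

set_option autoImplicit false

namespace Pool.Agent.W5h30.An

open Finset Real Filter Topology

/-- the terms of the derivatives of the function `∑ (-1)^i e / (i! (x + 1 + i))` -/
noncomputable def gt (m i : ℕ) (x : ℝ) : ℝ :=
  Real.exp 1 * ((-1) ^ (m + i) * m.factorial / i.factorial) * ((x + 1 + i) ^ (m + 1))⁻¹

/-- the function and its derivatives -/
noncomputable def ef (m : ℕ) (x : ℝ) : ℝ := ∑' i, gt m i x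

lemma gt_der (m i : ℕ) (x : ℝ) (hx : 0 ≤ x) : HasDerivAt (gt m i) (gt (m + 1) i x) x := by
  have hpos : 0 < x + 1 + i := by positivity
  have h1 : HasDerivAt (fun x : ℝ => x + 1 + i) 1 x := by
    simpa using ((hasDerivAt_id x).add_const (1 : ℝ)).add_const (i : ℝ)
  have h2 : HasDerivAt (fun y : ℝ => ((y + 1 + i) ^ (m + 1))⁻¹)
      (-(((m + 1 : ℕ) : ℝ) * (x + 1 + i) ^ (m + 1 - 1) * 1) / ((x + 1 + i) ^ (m + 1)) ^ 2) x :=
    (h1.pow (m + 1)).inv (pow_ne_zero _ hpos.ne')
  have h3 := h2.const_mul (Real.exp 1 * ((-1) ^ (m + i) * m.factorial / i.factorial))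
  refine h3.congr_deriv ?_
  unfold gt
  rw [Nat.factorial_succ]
  have h4 : (-1 : ℝ) ^ (m + 1 + i) = -((-1) ^ (m + i)) := by
    rw [show m + 1 + i = (m + i) + 1 by ring, pow_succ]
    ring
  rw [h4]
  push_cast
  field_simp
  ring_nf

lemma gt_le (m i : ℕ) (x : ℝ) (hx : 0 ≤ x) :
    ‖gt m i x‖ ≤ Real.exp 1 * m.factorial * (1 / i.factorial) := by
  have hpos : 1 ≤ x + 1 + i := by
    have : (0 : ℝ) ≤ i := Nat.cast_nonneg i
    linarith
  unfold gt
  rw [norm_mul, norm_mul, norm_div, norm_mul, norm_pow, norm_neg, norm_one, one_pow, one_mul,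
    Real.norm_of_nonneg (Real.exp_pos 1).le, Real.norm_of_nonneg (Nat.cast_nonneg _),
    Real.norm_of_nonneg (Nat.cast_nonneg _), Real.norm_of_nonneg (by positivity)]
  have h1 : ((x + 1 + i) ^ (m + 1))⁻¹ ≤ 1 := by
    apply inv_le_one_of_one_le₀
    exact one_le_pow₀ hpos
  calc Real.exp 1 * ((m.factorial : ℝ) / i.factorial) * ((x + 1 + i) ^ (m + 1))⁻¹
      ≤ Real.exp 1 * ((m.factorial : ℝ) / i.factorial) * 1 := by gcongr
    _ = _ := by ring

lemma summable_bd (m : ℕ) : Summable fun i : ℕ => Real.exp 1 * m.factorial * (1 / (i.factorial : ℝ)) := by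
  apply Summable.mul_left
  have := Real.summable_pow_div_factorial 1
  simpa using this

lemma summable_gt (m : ℕ) (x : ℝ) (hx : 0 ≤ x) : Summable fun i => gt m i x :=
  Summable.of_norm_bounded (summable_bd m) fun i => gt_le m i x hx

lemma ef_der (m : ℕ) (x : ℝ) (hx : 1 ≤ x) : HasDerivAt (ef m) (ef (m + 1) x) x := by
  unfold ef
  exact hasDerivAt_tsum_of_isPreconnected (summable_bd (m + 1)) isOpen_Ioi isPreconnected_Ioi
    (fun i y hy => gt_der m i y (le_of_lt hy)) (fun i y hy => gt_le (m + 1) i y (le_of_lt hy))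
    (Set.mem_Ioi.2 (by linarith : (0 : ℝ) < x)) (summable_gt m x (by linarith))
    (Set.mem_Ioi.2 (by linarith : (0 : ℝ) < x))

lemma sum_alt : ∑' i : ℕ, (-1 : ℝ) ^ i / i.factorial = Real.exp (-1) := by
  rw [Real.exp_eq_exp_ℝ, NormedSpace.exp_eq_tsum_div]

lemma summable_alt : Summable fun i : ℕ => (-1 : ℝ) ^ i / i.factorial :=
  Real.summable_pow_div_factorial (-1)

/-- the recursion -/
lemma ef_rec (x : ℝ) (hx : 0 ≤ x) : (x + 1) * ef 0 x = 1 + ef 0 (x + 1) := by
  have h1 : ∀ i : ℕ, (x + 1) * gt 0 i x = Real.exp 1 * ((-1) ^ i / i.factorial) -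
      Real.exp 1 * ((-1) ^ i / i.factorial * (i / (x + 1 + i))) := by
    intro i
    have hpos : 0 < x + 1 + i := by positivity
    unfold gt
    simp only [Nat.zero_add, Nat.factorial_zero, Nat.cast_one, mul_one, pow_one]
    field_simp
    ring
  have hs1 : Summable fun i : ℕ => Real.exp 1 * ((-1 : ℝ) ^ i / i.factorial) :=
    summable_alt.mul_left _
  have hs2 : Summable fun i : ℕ => (x + 1) * gt 0 i x := (summable_gt 0 x hx).mul_left _
  have hs3 : Summable fun i : ℕ =>
      Real.exp 1 * ((-1 : ℝ) ^ i / i.factorial * (i / (x + 1 + i))) := by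
    have : (fun i : ℕ => Real.exp 1 * ((-1 : ℝ) ^ i / i.factorial * (i / (x + 1 + i)))) =
        fun i => Real.exp 1 * ((-1 : ℝ) ^ i / i.factorial) - (x + 1) * gt 0 i x := by
      funext i
      rw [h1 i]
      ring
    rw [this]
    exact hs1.sub hs2
  have h2 : (x + 1) * ef 0 x = Real.exp 1 * Real.exp (-1) -
      ∑' i : ℕ, Real.exp 1 * ((-1 : ℝ) ^ i / i.factorial * (i / (x + 1 + i))) := by
    unfold ef
    rw [← tsum_mul_left, tsum_congr h1, hs1.tsum_sub hs3, tsum_mul_left, sum_alt]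
  have h3 : Real.exp 1 * Real.exp (-1) = 1 := by
    rw [← Real.exp_add]
    simp
  rw [h2, h3, hs3.tsum_eq_zero_add]
  have h4 : ∀ i : ℕ, Real.exp 1 * ((-1 : ℝ) ^ (i + 1) / (i + 1).factorial *
      (((i + 1 : ℕ) : ℝ) / (x + 1 + ((i + 1 : ℕ) : ℝ)))) = -gt 0 i (x + 1) := by
    intro i
    have hpos : 0 < x + 1 + 1 + i := by positivity
    have hpos' : 0 < x + 1 + (i + 1) := by positivity
    unfold gt
    rw [Nat.factorial_succ]
    simp only [Nat.zero_add, Nat.factorial_zero, Nat.cast_one, mul_one, pow_one]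
    push_cast
    rw [show x + 1 + 1 + (i : ℝ) = x + 1 + ((i : ℝ) + 1) by ring]
    field_simp
    ring
  rw [tsum_congr h4, tsum_neg]
  unfold ef
  simp

lemma ef_zero : ef 0 0 = Real.exp 1 - 1 := by
  have h1 : ∀ i : ℕ, gt 0 i 0 = -(Real.exp 1 * ((-1 : ℝ) ^ (i + 1) / (i + 1).factorial)) := by
    intro i
    unfold gt
    rw [Nat.factorial_succ]
    simp only [Nat.zero_add, Nat.factorial_zero, Nat.cast_one, mul_one, pow_one]
    have hpos : (0 : ℝ) < 0 + 1 + i := by positivity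
    push_cast
    rw [show (0 : ℝ) + 1 + i = i + 1 by ring]
    field_simp
    ring
  unfold ef
  rw [tsum_congr h1, tsum_neg, tsum_mul_left]
  have h2 := summable_alt.tsum_eq_zero_add
  rw [sum_alt] at h2
  have h3 : ∑' i : ℕ, (-1 : ℝ) ^ (i + 1) / (i + 1).factorial = Real.exp (-1) - 1 := by
    simp only [pow_zero, Nat.factorial_zero, Nat.cast_one, div_one] at h2
    linarith
  rw [h3]
  have h4 : Real.exp 1 * Real.exp (-1) = 1 := by
    rw [← Real.exp_add]
    simp
  linarith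

/-- `n! e` differs from the function by an integer -/
theorem fact_e (n : ℕ) : ∃ a : ℤ, (n.factorial : ℝ) * Real.exp 1 = ef 0 n + a := by
  induction n with
  | zero =>
    refine ⟨1, ?_⟩
    simp only [Nat.factorial_zero, Nat.cast_one, one_mul, Nat.cast_zero]
    rw [ef_zero]
    push_cast
    ring
  | succ n ih =>
    obtain ⟨a, ha⟩ := ih
    refine ⟨(n + 1) * a + 1, ?_⟩
    rw [Nat.factorial_succ]
    push_cast
    have h1 := ef_rec n (Nat.cast_nonneg n)
    calc ((n : ℝ) + 1) * n.factorial * Real.exp 1 = (n + 1) * (n.factorial * Real.exp 1) := by ring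
      _ = (n + 1) * ef 0 n + (n + 1) * a := by rw [ha]; ring
      _ = _ := by rw [h1]; ring

/-- the size of the derivatives -/
theorem ef_size (m : ℕ) (x : ℝ) (hx : 1 ≤ x) :
    Real.exp 1 * m.factorial * (1 / 3) * ((5 * x) ^ (m + 1))⁻¹ ≤ |ef m x| ∧
      |ef m x| ≤ Real.exp 1 * m.factorial * Real.exp 1 * (x ^ (m + 1))⁻¹ := by
  -- the alternating series
  set a : ℕ → ℝ := fun i => 1 / i.factorial * ((x + 1 + i) ^ (m + 1))⁻¹ with ha
  have ha0 : ∀ i, 0 ≤ a i := fun i => by simp only [ha]; positivity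
  have hg : ∀ i, gt m i x = Real.exp 1 * m.factorial * (-1) ^ m * ((-1) ^ i * a i) := by
    intro i
    simp only [ha, gt]
    rw [pow_add]
    ring
  have hs : Summable fun i => (-1 : ℝ) ^ i * a i := by
    have h1 := (summable_gt m x (by linarith)).mul_left ((Real.exp 1 * m.factorial * (-1) ^ m)⁻¹)
    refine h1.congr fun i => ?_
    rw [hg]
    have : (Real.exp 1 * m.factorial * (-1 : ℝ) ^ m) ≠ 0 := by positivity
    field_simp
  have he : ef m x = Real.exp 1 * m.factorial * (-1) ^ m * ∑' i, (-1) ^ i * a i := by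
    unfold ef
    rw [tsum_congr hg, tsum_mul_left]
  have habs : |ef m x| = Real.exp 1 * m.factorial * |∑' i, (-1) ^ i * a i| := by
    rw [he, abs_mul, abs_mul, abs_pow, abs_neg, abs_one, one_pow, mul_one,
      abs_of_pos (by positivity : 0 < Real.exp 1 * (m.factorial : ℝ))]
  have hanti : Antitone a := by
    apply antitone_nat_of_succ_le
    intro i
    simp only [ha]
    have h1 : (1 : ℝ) / (i + 1).factorial ≤ 1 / i.factorial := by
      apply one_div_le_one_div_of_le (by positivity)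
      exact_mod_cast Nat.factorial_le (Nat.le_succ i)
    have h2 : ((x + 1 + ((i + 1 : ℕ) : ℝ)) ^ (m + 1))⁻¹ ≤ ((x + 1 + i) ^ (m + 1))⁻¹ := by
      apply inv_anti₀ (by positivity)
      push_cast
      gcongr
      linarith
    gcongr
  have hlow : ∑ i ∈ range (2 * 2), (-1 : ℝ) ^ i * a i ≤ ∑' i, (-1) ^ i * a i :=
    hanti.alternating_series_le_tendsto hs.hasSum.tendsto_sum_nat 2
  have hlow2 : 1 / 3 * ((5 * x) ^ (m + 1))⁻¹ ≤ ∑ i ∈ range (2 * 2), (-1 : ℝ) ^ i * a i := by
    have h1 : ∑ i ∈ range (2 * 2), (-1 : ℝ) ^ i * a i = (a 0 - a 1) + (a 2 - a 3) := by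
      simp only [show 2 * 2 = 4 by norm_num, sum_range_succ, sum_range_zero]
      ring
    rw [h1]
    have h2 : 0 ≤ a 0 - a 1 := sub_nonneg.2 (hanti (Nat.le_succ 0))
    have h3 : a 3 = 1 / 6 * ((x + 4) ^ (m + 1))⁻¹ := by
      simp only [ha]
      norm_num [Nat.factorial]
      ring_nf
    have h4 : 1 / 2 * ((x + 4) ^ (m + 1))⁻¹ ≤ a 2 := by
      simp only [ha]
      have h6 : ((x + 4) ^ (m + 1))⁻¹ ≤ ((x + 1 + ((2 : ℕ) : ℝ)) ^ (m + 1))⁻¹ := by
        apply inv_anti₀ (by positivity)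
        have h7 : x + 1 + ((2 : ℕ) : ℝ) ≤ x + 4 := by
          push_cast
          linarith
        exact pow_le_pow_left₀ (by positivity) h7 _
      have h8 : (1 : ℝ) / 2 = 1 / ((2 : ℕ).factorial : ℝ) := by norm_num [Nat.factorial]
      rw [h8]
      gcongr
    have h5 : ((5 * x) ^ (m + 1))⁻¹ ≤ ((x + 4) ^ (m + 1))⁻¹ := by
      apply inv_anti₀ (by positivity)
      gcongr
      linarith
    rw [h3]
    linarith
  have hup : |∑' i, (-1) ^ i * a i| ≤ Real.exp 1 * (x ^ (m + 1))⁻¹ := by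
    have hsb : Summable fun i : ℕ => (1 : ℝ) / i.factorial * (x ^ (m + 1))⁻¹ := by
      apply Summable.mul_right
      have := Real.summable_pow_div_factorial 1
      simpa using this
    have hterm : ∀ i, ‖(-1 : ℝ) ^ i * a i‖ ≤ 1 / i.factorial * (x ^ (m + 1))⁻¹ := by
      intro i
      rw [norm_mul, norm_pow, norm_neg, norm_one, one_pow, one_mul, Real.norm_of_nonneg (ha0 i)]
      simp only [ha]
      have : ((x + 1 + i) ^ (m + 1))⁻¹ ≤ (x ^ (m + 1))⁻¹ := by
        apply inv_anti₀ (by positivity)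
        gcongr
        have : (0 : ℝ) ≤ i := Nat.cast_nonneg i
        linarith
      gcongr
    have h1 : Summable fun i => ‖(-1 : ℝ) ^ i * a i‖ :=
      Summable.of_nonneg_of_le (fun _ => norm_nonneg _) hterm hsb
    rw [← Real.norm_eq_abs]
    refine (norm_tsum_le_tsum_norm h1).trans ((h1.tsum_le_tsum hterm hsb).trans ?_)
    rw [tsum_mul_right]
    have h2 : ∑' i : ℕ, (1 : ℝ) / i.factorial = Real.exp 1 := by
      rw [Real.exp_eq_exp_ℝ, NormedSpace.exp_eq_tsum_div]
      simp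
    rw [h2]
  have hS : 0 ≤ ∑' i, (-1) ^ i * a i := le_trans (by positivity) (hlow2.trans hlow)
  rw [habs]
  constructor
  · rw [abs_of_nonneg hS]
    calc Real.exp 1 * m.factorial * (1 / 3) * ((5 * x) ^ (m + 1))⁻¹ =
        Real.exp 1 * m.factorial * (1 / 3 * ((5 * x) ^ (m + 1))⁻¹) := by ring
      _ ≤ _ := by
          gcongr
          exact hlow2.trans hlow
  · calc Real.exp 1 * m.factorial * |∑' i, (-1) ^ i * a i| ≤
        Real.exp 1 * m.factorial * (Real.exp 1 * (x ^ (m + 1))⁻¹) := by gcongr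
      _ = _ := by ring

theorem reg_ef : Reg 1 ef := by
  refine ⟨ef_der, fun m _ => ?_⟩
  refine ⟨Real.exp 1 * m.factorial * (1 / 3) * ((5 : ℝ) ^ (m + 1))⁻¹,
    Real.exp 1 * m.factorial * Real.exp 1, 1, by positivity, by positivity, fun x hx => ?_⟩
  have hxp : 0 < x := by linarith
  have hpow : x ^ (-1 - (m : ℝ)) = (x ^ (m + 1))⁻¹ := by
    rw [← Real.rpow_natCast, ← Real.rpow_neg hxp.le]
    congr 1
    push_cast
    ring
  have h := ef_size m x hx
  rw [hpow]
  constructor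
  · refine le_trans (le_of_eq ?_) h.1
    rw [mul_pow, mul_inv]
    ring
  · exact h.2

end Pool.Agent.W5h30.An
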