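import Pool.Agent.W5h30.An.Glob
import Pool.Agent.Y933.KD.Fam
import Pool.Agent.Y933.KD.Roots

/-!
# The values of an analytic function at the rational points with a given denominator
-/

set_option autoImplicit false

namespace Pool.Agent.W5h30.An

open Finset Real Filter Topology Polynomial MeasureTheory
open Pool.Agent.H469R2.NK (e norm_e e_add norm_sum_neg)
open Pool.Agent.Y933.KD (unif hat Good wd size_freq integral_unif unif_prob normal_gen)

/-- the integers `a` with `u ≤ a / M ≤ v` -/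
noncomputable def TT (u v : ℝ) (M : ℕ) : Finset ℤ := Finset.Icc ⌈u * M⌉ ⌊v * M⌋

/-- the distributions of the numbers `ω g(a / M) + R(a)` -/
def SA (g : ℝ → ℝ) (u v δ W : ℝ) (d : ℕ) (M : ℕ) : Set (Measure ℝ) :=
  {P | ∃ (ω : ℝ) (R : ℝ[X]), R.natDegree ≤ d ∧ (M : ℝ) ^ δ ≤ |ω| ∧ |ω| ≤ (M : ℝ) ^ W ∧
    (TT u v M).Nonempty ∧
    P = unif (TT u v M) (fun a : ℤ => ω * g ((a : ℝ) / M) + R.eval (a : ℝ))}

lemma SA_prob {g : ℝ → ℝ} {u v δ W : ℝ} {d : ℕ} (M : ℕ) (_hM : 1 ≤ M) (P : Measure ℝ)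
    (hP : P ∈ SA g u v δ W d M) : IsProbabilityMeasure P := by
  obtain ⟨ω, R, _, _, _, hne, rfl⟩ := hP
  exact unif_prob hne _

lemma card_TT_ge (u v : ℝ) (M : ℕ) : (v - u) * M - 1 ≤ (TT u v M).card := by
  unfold TT
  rw [Int.card_Icc]
  have h1 := Int.lt_floor_add_one (v * M)
  have h2 := Int.ceil_lt_add_one (u * M)
  have h3 : (⌊v * M⌋ + 1 - ⌈u * M⌉ : ℤ) ≤ ((⌊v * M⌋ + 1 - ⌈u * M⌉).toNat : ℤ) := Int.self_le_toNat _
  have h4 : ((⌊v * M⌋ + 1 - ⌈u * M⌉ : ℤ) : ℝ) ≤ (((⌊v * M⌋ + 1 - ⌈u * M⌉).toNat : ℤ) : ℝ) := by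
    exact_mod_cast h3
  push_cast at h4
  have h5 : (((⌊v * M⌋ + 1 - ⌈u * M⌉).toNat : ℕ) : ℝ) = (((⌊v * M⌋ + 1 - ⌈u * M⌉).toNat : ℤ) : ℝ) := by
    norm_cast
  rw [h5]
  push_cast
  linarith

lemma card_TT_le {u v : ℝ} (huv : u ≤ v) (M : ℕ) : ((TT u v M).card : ℝ) ≤ (v - u) * M + 1 := by
  unfold TT
  rw [Int.card_Icc]
  have h1 := Int.floor_le (v * M)
  have h2 := Int.le_ceil (u * M)
  have hM : (0 : ℝ) ≤ M := Nat.cast_nonneg M
  rcases le_total 0 (⌊v * M⌋ + 1 - ⌈u * M⌉) with h | h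
  · have h3 : (((⌊v * M⌋ + 1 - ⌈u * M⌉).toNat : ℕ) : ℝ) = ((⌊v * M⌋ + 1 - ⌈u * M⌉ : ℤ) : ℝ) := by
      have := Int.toNat_of_nonneg h
      exact_mod_cast this
    rw [h3]
    push_cast
    linarith
  · rw [Int.toNat_of_nonpos h]
    push_cast
    nlinarith

/-- the family has small Fourier coefficients -/
theorem good_SA {g : ℝ → ℝ} {u v : ℝ} (huv : u < v) (hg : AnalyticOnNhd ℝ g (Set.Icc u v))
    (hne : ∀ x ∈ Set.Icc u v, ∀ m, ¬ ∀ᶠ t in 𝓝 x, iteratedDeriv m g t = 0) (d : ℕ) (W : ℝ) {δ : ℝ}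
    (hδ : 0 < δ) (B k : ℕ) (A : ℝ) : Good B k A (SA g u v δ W d) := by
  obtain ⟨ρ0, hρ0, C0, hC0, q0, hS⟩ := glob huv.le hg hne d (W + (1 + 1 + A * log B)) δ hδ
  set ρ : ℝ := min ρ0 1 / 2 with hρ
  have hρp : 0 < ρ := by positivity
  have hρ1 : 2 * ρ ≤ ρ0 := by rw [hρ]; linarith [min_le_left ρ0 1]
  have hρ2 : 2 * ρ ≤ 1 := by rw [hρ]; linarith [min_le_right ρ0 1]
  have hvu : 0 < v - u := by linarith
  obtain ⟨M1, hM1⟩ := eventually_atTop.1 ((Pool.Agent.Y933.KD.VdC.ev_le (2 / (v - u) * (C0 + 1)) ρ hρp).and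
    (Pool.Agent.Y933.KD.VdC.ev_le (2 / (v - u)) 1 one_pos))
  refine ⟨ρ, hρp, max (max q0 M1) (max k 1), ?_⟩
  intro M hM P hP b n h hb hn hh hne0
  obtain ⟨ω, R, hR, hω1, hω2, hTne, rfl⟩ := hP
  have hMq0 : q0 ≤ M := le_of_max_le_left (le_of_max_le_left hM)
  have hMM1 : M1 ≤ M := le_of_max_le_right (le_of_max_le_left hM)
  have hMk : k ≤ M := le_of_max_le_left (le_of_max_le_right hM)
  have hM1' : 1 ≤ M := le_of_max_le_right (le_of_max_le_right hM)
  have hMR : (1 : ℝ) ≤ M := by exact_mod_cast hM1'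
  have hMp : (0 : ℝ) < M := by linarith
  obtain ⟨hbig1, hbig2⟩ := hM1 M hMM1
  rw [Real.rpow_one] at hbig2
  set l : ℤ := ∑ i, h i * (b i : ℤ) ^ n i with hl
  have hl1 : (1 : ℝ) ≤ |(l : ℝ)| := by
    have : (1 : ℤ) ≤ |l| := Int.one_le_abs hne0
    exact_mod_cast this
  have hl2 : |(l : ℝ)| ≤ (M : ℝ) ^ (1 + 1 + A * log B) := by
    refine (size_freq hM1' hMk b n h hb hn hh).trans ?_
    apply Real.rpow_le_rpow_of_exponent_le hMR
    linarith
  have hf1 : (M : ℝ) ^ δ ≤ |(l : ℝ) * ω| := by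
    rw [abs_mul]
    have : 0 ≤ |ω| := abs_nonneg _
    nlinarith
  have hf2 : |(l : ℝ) * ω| ≤ (M : ℝ) ^ (W + (1 + 1 + A * log B)) := by
    rw [abs_mul, Real.rpow_add hMp, mul_comm]
    gcongr
  have hRl : (Polynomial.C (l : ℝ) * R).natDegree ≤ d := (natDegree_C_mul_le _ _).trans hR
  have hNN : ⌈u * M⌉ ≤ ⌊v * M⌋ := by
    have := hTne
    unfold TT at this
    rwa [Finset.nonempty_Icc] at this
  have key := hS M hMq0 _ (Polynomial.C (l : ℝ) * R) hRl hf1 hf2 ⌈u * M⌉ ⌊v * M⌋ hNN (Int.le_ceil _)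
    (Int.floor_le _)
  -- the Fourier coefficient
  have hsum : ‖∑ a ∈ TT u v M, e (l * (ω * g ((a : ℝ) / M) + R.eval (a : ℝ)))‖ ≤
      1 + C0 * (M : ℝ) ^ (1 - ρ0) := by
    have h1 : TT u v M = insert ⌈u * M⌉ (Finset.Ioc ⌈u * M⌉ ⌊v * M⌋) := by
      unfold TT
      ext a
      rw [Finset.mem_insert, Finset.mem_Icc, Finset.mem_Ioc]
      omega
    rw [h1, Finset.sum_insert (by rw [Finset.mem_Ioc]; omega)]
    refine (norm_add_le _ _).trans ?_
    rw [norm_e]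
    have h2 : ∑ a ∈ Finset.Ioc ⌈u * M⌉ ⌊v * M⌋, e (l * (ω * g ((a : ℝ) / M) + R.eval (a : ℝ))) =
        ∑ a ∈ Finset.Ioc ⌈u * M⌉ ⌊v * M⌋, e ((l : ℝ) * ω * g ((a : ℝ) / M) +
          (Polynomial.C (l : ℝ) * R).eval (a : ℝ)) := by
      refine sum_congr rfl fun a _ => ?_
      congr 1
      rw [Polynomial.eval_mul, Polynomial.eval_C]
      ring
    rw [h2]
    linarith
  have hcard : (v - u) / 2 * M ≤ (TT u v M).card := by
    have h1 := card_TT_ge u v M
    have h2 : 2 ≤ M * (v - u) := by rwa [div_le_iff₀ hvu] at hbig2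
    linarith
  have hcard0 : (0 : ℝ) < (TT u v M).card := by
    have : 0 < (v - u) / 2 * M := by positivity
    linarith
  unfold hat
  rw [integral_unif]
  have e1 : ∑ a ∈ TT u v M, Pool.Agent.Y933.KD.e (l * (ω * g ((a : ℝ) / M) + R.eval (a : ℝ))) =
      ∑ a ∈ TT u v M, e (l * (ω * g ((a : ℝ) / M) + R.eval (a : ℝ))) :=
    sum_congr rfl fun a _ => rfl
  rw [e1, norm_mul, norm_div, norm_one, Complex.norm_natCast, one_div, inv_mul_le_iff₀ hcard0]
  refine hsum.trans ?_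
  have e3 : 1 ≤ (M : ℝ) ^ (1 - 2 * ρ) := Real.one_le_rpow hMR (by linarith)
  have e4 : (M : ℝ) ^ (1 - ρ0) ≤ (M : ℝ) ^ (1 - 2 * ρ) :=
    Real.rpow_le_rpow_of_exponent_le hMR (by linarith)
  have e5 : (2 / (v - u) * (C0 + 1)) * (M : ℝ) ^ (1 - 2 * ρ) ≤ (M : ℝ) ^ ρ * (M : ℝ) ^ (1 - 2 * ρ) := by
    gcongr
  have e6 : (M : ℝ) ^ ρ * (M : ℝ) ^ (1 - 2 * ρ) = M * (M : ℝ) ^ (-ρ) := by
    nth_rewrite 3 [← Real.rpow_one (M : ℝ)]
    rw [← Real.rpow_add hMp, ← Real.rpow_add hMp]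
    congr 1
    ring
  calc 1 + C0 * (M : ℝ) ^ (1 - ρ0) ≤ (C0 + 1) * (M : ℝ) ^ (1 - 2 * ρ) := by nlinarith
    _ = (v - u) / 2 * ((2 / (v - u) * (C0 + 1)) * (M : ℝ) ^ (1 - 2 * ρ)) := by
        field_simp
    _ ≤ (v - u) / 2 * (M * (M : ℝ) ^ (-ρ)) := by
        rw [← e6]
        gcongr
    _ = (v - u) / 2 * M * (M : ℝ) ^ (-ρ) := by ring
    _ ≤ (TT u v M).card * (M : ℝ) ^ (-ρ) := by gcongr

lemma wd_shift (b k s s0 : ℕ) (y : ℝ) : wd b k s ((b : ℝ) ^ s0 * y) = wd b k (s + s0) y := by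
  unfold wd
  rw [pow_add, mul_assoc]

open Classical in
/-- windows which start later -/
lemma window {b k j : ℕ} {y : ℝ} {s0 : ℕ} {L E : ℝ}
    (h : ∀ s N : ℕ, (s : ℝ) + N ≤ L →
      |(((Finset.range N).filter (fun i => wd b k (s + i) ((b : ℝ) ^ s0 * y) = j)).card : ℝ) -
        N / (b : ℝ) ^ k| ≤ E) (hE : 0 ≤ E) (hb : 1 ≤ b) (s N : ℕ) (hsN : (s : ℝ) + N ≤ L) :
    |(((Finset.range N).filter (fun i => wd b k (s + i) y = j)).card : ℝ) - N / (b : ℝ) ^ k| ≤
      E + s0 := by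
  have hb' : (1 : ℝ) ≤ (b : ℝ) ^ k := one_le_pow₀ (by exact_mod_cast hb)
  -- the number of places before `s0`
  obtain ⟨p, hp, hp1, hp2⟩ : ∃ p : ℕ, p ≤ N ∧ p ≤ s0 ∧ (p = N ∨ s0 ≤ s + p) := by
    rcases le_total N (s0 - s) with h1 | h1
    · exact ⟨N, le_rfl, by omega, Or.inl rfl⟩
    · exact ⟨s0 - s, h1, by omega, Or.inr (by omega)⟩
  obtain ⟨N', rfl⟩ := Nat.exists_eq_add_of_le hp
  have hcount : (((Finset.range (p + N')).filter (fun i => wd b k (s + i) y = j)).card : ℝ) =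
      ((Finset.range p).filter (fun i => wd b k (s + i) y = j)).card +
      ((Finset.range N').filter (fun i => wd b k (s + (p + i)) y = j)).card := by
    rw [card_filter, card_filter, card_filter, sum_range_add]
    push_cast
    rfl
  have hfirst : |(((Finset.range p).filter (fun i => wd b k (s + i) y = j)).card : ℝ) -
      p / (b : ℝ) ^ k| ≤ p := by
    have h1 : (((Finset.range p).filter (fun i => wd b k (s + i) y = j)).card : ℝ) ≤ p := by
      have := Finset.card_filter_le (Finset.range p) (fun i => wd b k (s + i) y = j)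
      rw [card_range] at this
      exact_mod_cast this
    have h2 : (0 : ℝ) ≤ ((Finset.range p).filter (fun i => wd b k (s + i) y = j)).card :=
      Nat.cast_nonneg _
    have h3 : (p : ℝ) / (b : ℝ) ^ k ≤ p := div_le_self (Nat.cast_nonneg _) hb'
    have h4 : 0 ≤ (p : ℝ) / (b : ℝ) ^ k := by positivity
    rw [abs_le]
    constructor <;> linarith
  have hpR : (p : ℝ) ≤ s0 := by exact_mod_cast hp1
  rcases hp2 with h2 | h2
  · have hN' : N' = 0 := by omega
    subst hN'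
    rw [hcount]
    simp only [range_zero, filter_empty, card_empty, Nat.cast_zero, add_zero]
    linarith
  · have h3 := h (s + p - s0) N' (by
      rw [Nat.cast_sub h2]
      push_cast at hsN ⊢
      have : (0 : ℝ) ≤ s0 := Nat.cast_nonneg _
      linarith)
    have h4 : ∀ i : ℕ, wd b k (s + p - s0 + i) ((b : ℝ) ^ s0 * y) = wd b k (s + (p + i)) y := by
      intro i
      rw [wd_shift]
      congr 1
      omega
    simp only [h4] at h3
    rw [hcount]
    push_cast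
    have h5 : (((Finset.range p).filter (fun i => wd b k (s + i) y = j)).card : ℝ) +
        ((Finset.range N').filter (fun i => wd b k (s + (p + i)) y = j)).card -
        ((p : ℝ) + N') / (b : ℝ) ^ k =
        ((((Finset.range p).filter (fun i => wd b k (s + i) y = j)).card : ℝ) - p / (b : ℝ) ^ k) +
        ((((Finset.range N').filter (fun i => wd b k (s + (p + i)) y = j)).card : ℝ) -
          N' / (b : ℝ) ^ k) := by ring
    rw [h5]
    refine (abs_add_le _ _).trans ?_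
    linarith

open Classical in
/-- **almost all values are normal up to a multiple of `log q` digits** -/
theorem normal_an {g : ℝ → ℝ} {u v : ℝ} (huv : u < v) (hg : AnalyticOnNhd ℝ g (Set.Icc u v))
    (hne : ∀ x ∈ Set.Icc u v, ∀ m, ¬ ∀ᶠ t in 𝓝 x, iteratedDeriv m g t = 0) (B w d : ℕ)
    (A W ε : ℝ) (hε : 0 < ε) :
    ∃ c : ℝ, 0 < c ∧ ∃ q0 : ℕ, ∀ q : ℕ, q0 ≤ q → ∀ (ω : ℝ) (R : ℝ[X]), R.natDegree ≤ d →
      (q : ℝ) ^ (-(ε / 16)) ≤ |ω| → |ω| ≤ (q : ℝ) ^ W →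
      (((TT u v q).filter (fun a : ℤ => ¬ ∀ b k j s N : ℕ, 2 ≤ b → b ≤ B → 1 ≤ k → k ≤ w →
        j < b ^ k → (s : ℝ) + N ≤ A * Real.log q →
        |(((Finset.range N).filter (fun i =>
            wd b k (s + i) (ω * g ((a : ℝ) / q) + R.eval (a : ℝ)) = j)).card : ℝ) -
          N / (b : ℝ) ^ k| ≤ ε * Real.log q)).card : ℝ) ≤ (q : ℝ) ^ (1 - c) := by
  set δ : ℝ := ε / 8 with hδ
  have hδ0 : 0 < δ := by positivity
  obtain ⟨c0, hc0, M0, hM0⟩ := normal_gen (ι := ℤ) (B := B) (w := w) (A := A) (ε := ε / 2)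
    (by positivity) (S := SA g u v (ε / 16) (W + (δ + 1)) d) SA_prob
    (good_SA huv hg hne d (W + (δ + 1)) (by positivity : 0 < ε / 16) B 1 A)
  have hvu : 0 < v - u := by linarith
  obtain ⟨M1, hM1⟩ := eventually_atTop.1
    (((Pool.Agent.Y933.KD.VdC.ev_le (B * (v - u + 1)) (c0 / 2) (by positivity)).and
    (Pool.Agent.Y933.KD.VdC.ev_le (2 / (v - u)) 1 one_pos)).and
    ((tendsto_log_atTop.comp tendsto_natCast_atTop_atTop).eventually_ge_atTop (4 / ε)))
  refine ⟨c0 / 2, by positivity, max (max M0 M1) (max B 2), ?_⟩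
  intro q hq ω R hR hω1 hω2
  have hqM0 : M0 ≤ q := le_of_max_le_left (le_of_max_le_left hq)
  have hqM1 : M1 ≤ q := le_of_max_le_right (le_of_max_le_left hq)
  have hqB : B ≤ q := le_of_max_le_left (le_of_max_le_right hq)
  have hq2 : 2 ≤ q := le_of_max_le_right (le_of_max_le_right hq)
  have hqR2 : (2 : ℝ) ≤ q := by exact_mod_cast hq2
  have hqR : (1 : ℝ) ≤ q := by linarith
  have hqp : (0 : ℝ) < q := by linarith
  obtain ⟨⟨hbig1, hbig2⟩, hbig3⟩ := hM1 q hqM1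
  rw [Real.rpow_one] at hbig2
  simp only [Function.comp_apply] at hbig3
  have hlogq : 0 < Real.log q := Real.log_pos (by linarith)
  have hTne : (TT u v q).Nonempty := by
    rw [← Finset.card_pos]
    have h1 := card_TT_ge u v q
    have h2 : 2 ≤ q * (v - u) := by rwa [div_le_iff₀ hvu] at hbig2
    have h3 : (0 : ℝ) < (TT u v q).card := by linarith
    exact_mod_cast h3
  -- one base
  have hbase : ∀ b : ℕ, 2 ≤ b → b ≤ B → (((TT u v q).filter (fun a : ℤ => ¬ ∀ k j s N : ℕ,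
      1 ≤ k → k ≤ w → j < b ^ k → (s : ℝ) + N ≤ A * Real.log q →
        |(((Finset.range N).filter (fun i =>
            wd b k (s + i) (ω * g ((a : ℝ) / q) + R.eval (a : ℝ)) = j)).card : ℝ) -
          N / (b : ℝ) ^ k| ≤ ε * Real.log q)).card : ℝ) ≤ (TT u v q).card * (q : ℝ) ^ (-c0) := by
    intro b hb2 hbB
    have hbR : (2 : ℝ) ≤ b := by exact_mod_cast hb2
    have hbp : (0 : ℝ) < b := by linarith
    have hlogb : 0 < Real.log b := Real.log_pos (by linarith)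
    set s0 : ℕ := ⌈δ * Real.log q / Real.log b⌉₊ with hs0
    have hs1 : δ * Real.log q / Real.log b ≤ s0 := Nat.le_ceil _
    have hs2 : (s0 : ℝ) < δ * Real.log q / Real.log b + 1 := Nat.ceil_lt_add_one (by positivity)
    have hbs1 : (q : ℝ) ^ δ ≤ (b : ℝ) ^ s0 := by
      rw [Real.rpow_def_of_pos hqp, ← Real.exp_log (by positivity : (0 : ℝ) < (b : ℝ) ^ s0),
        Real.log_pow]
      apply Real.exp_le_exp.2
      rw [div_le_iff₀ hlogb] at hs1
      linarith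
    have hbs2 : (b : ℝ) ^ s0 ≤ (q : ℝ) ^ (δ + 1) := by
      rw [Real.rpow_def_of_pos hqp, ← Real.exp_log (by positivity : (0 : ℝ) < (b : ℝ) ^ s0),
        Real.log_pow]
      apply Real.exp_le_exp.2
      have h1 : Real.log b ≤ Real.log q := Real.log_le_log hbp (by exact_mod_cast hbB.trans hqB)
      have h2 : (s0 : ℝ) * Real.log b ≤ (δ * Real.log q / Real.log b + 1) * Real.log b := by
        gcongr
      rw [add_mul, div_mul_cancel₀ _ hlogb.ne'] at h2
      nlinarith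
    have hs3 : (s0 : ℝ) ≤ ε / 2 * Real.log q := by
      have h1 : Real.log 2 ≤ Real.log b := Real.log_le_log (by norm_num) hbR
      have h2 : (1 : ℝ) / 2 ≤ Real.log b := by
        have := Real.log_two_gt_d9
        linarith
      have h3 : δ * Real.log q / Real.log b ≤ 2 * (δ * Real.log q) := by
        rw [div_le_iff₀ hlogb]
        have : 0 < δ * Real.log q := by positivity
        nlinarith
      have h4 : 1 ≤ ε / 4 * Real.log q := by
        rw [div_le_iff₀ hε] at hbig3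
        linarith
      have h5 : 2 * (δ * Real.log q) = ε / 4 * Real.log q := by rw [hδ]; ring
      linarith
    have key := hM0 q hqM0 (TT u v q)
      (fun a : ℤ => (b : ℝ) ^ s0 * (ω * g ((a : ℝ) / q) + R.eval (a : ℝ))) (by
      refine ⟨(b : ℝ) ^ s0 * ω, Polynomial.C ((b : ℝ) ^ s0) * R, (natDegree_C_mul_le _ _).trans hR,
        ?_, ?_, hTne, ?_⟩
      · rw [abs_mul, abs_of_pos (by positivity)]
        calc (q : ℝ) ^ (ε / 16) = (q : ℝ) ^ δ * (q : ℝ) ^ (-(ε / 16)) := by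
              rw [← Real.rpow_add hqp]
              congr 1
              rw [hδ]
              ring
          _ ≤ _ := by gcongr
      · rw [abs_mul, abs_of_pos (by positivity), Real.rpow_add hqp, mul_comm]
        gcongr
      · congr 1
        funext a
        rw [Polynomial.eval_mul, Polynomial.eval_C]
        ring)
    refine le_trans ?_ key
    refine Nat.cast_le.2 (Finset.card_le_card fun a ha => ?_)
    rw [Finset.mem_filter] at ha ⊢
    refine ⟨ha.1, fun hcon => ha.2 ?_⟩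
    intro k j s N hk hkw hj hsN
    have h1 := window (b := b) (k := k) (j := j) (s0 := s0) (L := A * Real.log q)
      (E := ε / 2 * Real.log q) (y := ω * g ((a : ℝ) / q) + R.eval (a : ℝ))
      (fun s N h => hcon b k j s N hb2 hbB hk hkw hj h) (by positivity) (by omega) s N hsN
    refine h1.trans ?_
    linarith
  -- all bases
  have hsub : (TT u v q).filter (fun a : ℤ => ¬ ∀ b k j s N : ℕ, 2 ≤ b → b ≤ B → 1 ≤ k → k ≤ w →
        j < b ^ k → (s : ℝ) + N ≤ A * Real.log q →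
        |(((Finset.range N).filter (fun i =>
            wd b k (s + i) (ω * g ((a : ℝ) / q) + R.eval (a : ℝ)) = j)).card : ℝ) -
          N / (b : ℝ) ^ k| ≤ ε * Real.log q) ⊆
      (Finset.Icc 2 B).biUnion (fun b => (TT u v q).filter (fun a : ℤ => ¬ ∀ k j s N : ℕ,
      1 ≤ k → k ≤ w → j < b ^ k → (s : ℝ) + N ≤ A * Real.log q →
        |(((Finset.range N).filter (fun i =>
            wd b k (s + i) (ω * g ((a : ℝ) / q) + R.eval (a : ℝ)) = j)).card : ℝ) -
          N / (b : ℝ) ^ k| ≤ ε * Real.log q)) := by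
    intro a ha
    rw [Finset.mem_filter] at ha
    obtain ⟨haT, hbad⟩ := ha
    push Not at hbad
    obtain ⟨b, k, j, s, N, hb, hbB, hk, hkw, hj, hsN, hlt⟩ := hbad
    rw [Finset.mem_biUnion]
    refine ⟨b, Finset.mem_Icc.2 ⟨hb, hbB⟩, ?_⟩
    rw [Finset.mem_filter]
    refine ⟨haT, fun hcon => ?_⟩
    have := hcon k j s N hk hkw hj hsN
    linarith
  have h1 : (((TT u v q).filter (fun a : ℤ => ¬ ∀ b k j s N : ℕ, 2 ≤ b → b ≤ B → 1 ≤ k → k ≤ w →
        j < b ^ k → (s : ℝ) + N ≤ A * Real.log q →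
        |(((Finset.range N).filter (fun i =>
            wd b k (s + i) (ω * g ((a : ℝ) / q) + R.eval (a : ℝ)) = j)).card : ℝ) -
          N / (b : ℝ) ^ k| ≤ ε * Real.log q)).card : ℝ) ≤
      ∑ b ∈ Finset.Icc 2 B, ((TT u v q).card * (q : ℝ) ^ (-c0)) := by
    refine (Nat.cast_le.2 ((Finset.card_le_card hsub).trans Finset.card_biUnion_le)).trans ?_
    push_cast
    refine sum_le_sum fun b hb => ?_
    rw [Finset.mem_Icc] at hb
    exact hbase b hb.1 hb.2
  refine h1.trans ?_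
  rw [sum_const, nsmul_eq_mul, Nat.card_Icc]
  have h2 : ((B + 1 - 2 : ℕ) : ℝ) ≤ B := by
    have : B + 1 - 2 ≤ B := by omega
    exact_mod_cast this
  have h3 := card_TT_le huv.le q
  have h4 : ((TT u v q).card : ℝ) ≤ (v - u + 1) * q := by nlinarith
  calc ((B + 1 - 2 : ℕ) : ℝ) * ((TT u v q).card * (q : ℝ) ^ (-c0))
      ≤ B * (((v - u + 1) * q) * (q : ℝ) ^ (-c0)) := by gcongr
    _ = (B * (v - u + 1)) * (q * (q : ℝ) ^ (-c0)) := by ring
    _ ≤ (q : ℝ) ^ (c0 / 2) * (q * (q : ℝ) ^ (-c0)) := by gcongr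
    _ = (q : ℝ) ^ (1 - c0 / 2) := by
        nth_rewrite 2 [← Real.rpow_one (q : ℝ)]
        rw [← Real.rpow_add hqp, ← Real.rpow_add hqp]
        congr 1
        ring

end Pool.Agent.W5h30.An
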