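import Pool.Agent.W5h30.An.Loc

/-!
# Exponential sums over the values of an analytic function at rational points: all of an interval
-/

set_option autoImplicit false

namespace Pool.Agent.W5h30.An

open Finset Real Filter Topology Polynomial
open Pool.Agent.H469R2.NK (e norm_e e_add norm_sum_neg)

lemma sum_Ioc_int (F : ℤ → ℂ) (N : ℤ) (L : ℕ) :
    ∑ a ∈ Finset.Ioc N (N + L), F a = ∑ n ∈ range L, F (N + 1 + n) := by
  induction L with
  | zero => simp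
  | succ L ih =>
    rw [sum_range_succ, ← ih]
    have h1 : Finset.Ioc N (N + ((L + 1 : ℕ) : ℤ)) = insert (N + 1 + (L : ℤ)) (Finset.Ioc N (N + L)) := by
      ext a
      rw [Finset.mem_insert, Finset.mem_Ioc, Finset.mem_Ioc]
      push_cast
      omega
    rw [h1, Finset.sum_insert (by rw [Finset.mem_Ioc]; omega)]
    ring

lemma norm_sum_e_le (F : ℤ → ℝ) (s : Finset ℤ) : ‖∑ a ∈ s, e (F a)‖ ≤ s.card := by
  refine (norm_sum_le _ _).trans ?_
  simp [norm_e]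

lemma sum_Ioc_split {a b c : ℤ} (h1 : a ≤ b) (h2 : b ≤ c) (F : ℤ → ℂ) :
    ∑ x ∈ Finset.Ioc a c, F x = ∑ x ∈ Finset.Ioc a b, F x + ∑ x ∈ Finset.Ioc b c, F x := by
  rw [← Finset.sum_union]
  · congr 1
    ext x
    rw [Finset.mem_union, Finset.mem_Ioc, Finset.mem_Ioc, Finset.mem_Ioc]
    omega
  · rw [Finset.disjoint_left]
    intro x hx hx'
    rw [Finset.mem_Ioc] at hx hx'
    omega

/-- small exponential sums at the multiples of `1 / q` in `[s, t]` -/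
def Sm (g : ℝ → ℝ) (d : ℕ) (A δ s t : ℝ) : Prop :=
  ∃ ρ : ℝ, 0 < ρ ∧ ∃ C : ℝ, 0 ≤ C ∧ ∃ q0 : ℕ, ∀ q : ℕ, q0 ≤ q → ∀ (f : ℝ) (R : ℝ[X]),
    R.natDegree ≤ d → (q : ℝ) ^ δ ≤ |f| → |f| ≤ (q : ℝ) ^ A → ∀ N1 N2 : ℤ, N1 ≤ N2 →
    s * q ≤ N1 → (N2 : ℝ) ≤ t * q →
    ‖∑ a ∈ Finset.Ioc N1 N2, e (f * g ((a : ℝ) / q) + R.eval (a : ℝ))‖ ≤ C * (q : ℝ) ^ (1 - ρ)

lemma Sm.mono {g : ℝ → ℝ} {d : ℕ} {A δ s t s' t' : ℝ} (h : Sm g d A δ s t) (hs : s ≤ s')
    (ht : t' ≤ t) : Sm g d A δ s' t' := by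
  obtain ⟨ρ, hρ, C, hC, q0, h⟩ := h
  refine ⟨ρ, hρ, C, hC, q0, fun q hq f R hR hf1 hf2 N1 N2 hN h1 h2 => ?_⟩
  have hq0 : (0 : ℝ) ≤ q := Nat.cast_nonneg q
  exact h q hq f R hR hf1 hf2 N1 N2 hN (by nlinarith) (by nlinarith)

lemma Sm.glue {g : ℝ → ℝ} {d : ℕ} {A δ s r t : ℝ} (h1 : Sm g d A δ s r) (h2 : Sm g d A δ r t) :
    Sm g d A δ s t := by
  obtain ⟨ρ1, hρ1, C1, hC1, q1, h1⟩ := h1
  obtain ⟨ρ2, hρ2, C2, hC2, q2, h2⟩ := h2
  set ρ : ℝ := min (min ρ1 ρ2) 1 with hρ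
  have hρ0 : 0 < ρ := by positivity
  have hρ1' : ρ ≤ ρ1 := (min_le_left _ _).trans (min_le_left _ _)
  have hρ2' : ρ ≤ ρ2 := (min_le_left _ _).trans (min_le_right _ _)
  have hρ3 : ρ ≤ 1 := min_le_right _ _
  refine ⟨ρ, hρ0, C1 + C2 + 1, by positivity, max (max q1 q2) 1, ?_⟩
  intro q hq f R hR hf1 hf2 N1 N2 hN hs ht
  have hqq1 : q1 ≤ q := (le_max_left _ _).trans ((le_max_left _ _).trans hq)
  have hqq2 : q2 ≤ q := (le_max_right _ _).trans ((le_max_left _ _).trans hq)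
  have hq1 : 1 ≤ q := (le_max_right _ _).trans hq
  have hqR : (1 : ℝ) ≤ q := by exact_mod_cast hq1
  have e1 : (q : ℝ) ^ (1 - ρ1) ≤ (q : ℝ) ^ (1 - ρ) :=
    Real.rpow_le_rpow_of_exponent_le hqR (by linarith)
  have e2 : (q : ℝ) ^ (1 - ρ2) ≤ (q : ℝ) ^ (1 - ρ) :=
    Real.rpow_le_rpow_of_exponent_le hqR (by linarith)
  have e3 : 1 ≤ (q : ℝ) ^ (1 - ρ) := Real.one_le_rpow hqR (by linarith)
  have e4 : 0 ≤ (q : ℝ) ^ (1 - ρ) := by linarith
  have f1 : C1 * (q : ℝ) ^ (1 - ρ1) ≤ C1 * (q : ℝ) ^ (1 - ρ) := by gcongr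
  have f2 : C2 * (q : ℝ) ^ (1 - ρ2) ≤ C2 * (q : ℝ) ^ (1 - ρ) := by gcongr
  have f3 : 0 ≤ C1 * (q : ℝ) ^ (1 - ρ) := by positivity
  have f4 : 0 ≤ C2 * (q : ℝ) ^ (1 - ρ) := by positivity
  rcases le_total (N2 : ℝ) (r * q) with hc | hc
  · have := h1 q hqq1 f R hR hf1 hf2 N1 N2 hN hs hc
    calc _ ≤ C1 * (q : ℝ) ^ (1 - ρ1) := this
      _ ≤ (C1 + C2 + 1) * (q : ℝ) ^ (1 - ρ) := by nlinarith
  · rcases le_total (r * q) (N1 : ℝ) with hc' | hc'
    · have := h2 q hqq2 f R hR hf1 hf2 N1 N2 hN hc' ht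
      calc _ ≤ C2 * (q : ℝ) ^ (1 - ρ2) := this
        _ ≤ (C1 + C2 + 1) * (q : ℝ) ^ (1 - ρ) := by nlinarith
    · have g1 : N1 ≤ ⌊r * q⌋ := Int.le_floor.2 hc'
      have g2 : ⌈r * q⌉ ≤ N2 := Int.ceil_le.2 hc
      have g3 : ⌊r * q⌋ ≤ ⌈r * q⌉ := Int.floor_le_ceil _
      have g4 : ⌈r * q⌉ ≤ ⌊r * q⌋ + 1 := Int.ceil_le_floor_add_one _
      rw [sum_Ioc_split g1 (g3.trans g2), sum_Ioc_split g3 g2]
      have k1 := h1 q hqq1 f R hR hf1 hf2 N1 ⌊r * q⌋ g1 hs (Int.floor_le _)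
      have k2 := h2 q hqq2 f R hR hf1 hf2 ⌈r * q⌉ N2 g2 (Int.le_ceil _) ht
      have k3 := norm_sum_e_le (fun a : ℤ => f * g ((a : ℝ) / q) + R.eval (a : ℝ))
        (Finset.Ioc ⌊r * q⌋ ⌈r * q⌉)
      have k4 : ((Finset.Ioc ⌊r * q⌋ ⌈r * q⌉).card : ℝ) ≤ 1 := by
        rw [Int.card_Ioc]
        have : (⌈r * q⌉ - ⌊r * q⌋).toNat ≤ 1 := by omega
        exact_mod_cast this
      refine (norm_add_le _ _).trans ?_
      have k5 := norm_add_le
        (∑ a ∈ Finset.Ioc ⌊r * q⌋ ⌈r * q⌉, e (f * g ((a : ℝ) / q) + R.eval (a : ℝ)))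
        (∑ a ∈ Finset.Ioc ⌈r * q⌉ N2, e (f * g ((a : ℝ) / q) + R.eval (a : ℝ)))
      calc _ ≤ C1 * (q : ℝ) ^ (1 - ρ1) + (1 + C2 * (q : ℝ) ^ (1 - ρ2)) := by
            refine add_le_add k1 (k5.trans (add_le_add (k3.trans k4) k2))
        _ ≤ (C1 + C2 + 1) * (q : ℝ) ^ (1 - ρ) := by nlinarith

/-- a neighbourhood of a point -/
theorem loc {g : ℝ → ℝ} {x : ℝ} (hg : AnalyticAt ℝ g x)
    (hne : ∀ m, ¬ ∀ᶠ t in 𝓝 x, iteratedDeriv m g t = 0) (d : ℕ) (A δ : ℝ) (hδ : 0 < δ) :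
    ∃ r : ℝ, 0 < r ∧ Sm g d A δ (x - r) (x + r) := by
  obtain ⟨r0, hr0, δ', hδ', ρ0, hρ0, q1, hfar⟩ := far hg hne d A δ hδ
  set r : ℝ := min (r0 / 2) (1 / 4) with hr
  have hrpos : 0 < r := by positivity
  have hr1 : r ≤ r0 / 2 := min_le_left _ _
  have hr2 : r ≤ 1 / 4 := min_le_right _ _
  set ρ : ℝ := min (min ρ0 δ') 1 with hρ
  have hρp : 0 < ρ := by positivity
  have hρ1 : ρ ≤ ρ0 := (min_le_left _ _).trans (min_le_left _ _)
  have hρ2 : ρ ≤ δ' := (min_le_left _ _).trans (min_le_right _ _)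
  have hρ3 : ρ ≤ 1 := min_le_right _ _
  refine ⟨r, hrpos, ρ, hρp, 8, by norm_num, max (max q1 (⌈4 / r0⌉₊ + 1)) 2, ?_⟩
  intro q hq f R hR hf1 hf2 N1 N2 hN hs ht
  have hqq1 : q1 ≤ q := (le_max_left _ _).trans ((le_max_left _ _).trans hq)
  have hqq3 : ⌈4 / r0⌉₊ + 1 ≤ q := (le_max_right _ _).trans ((le_max_left _ _).trans hq)
  have hq2 : 2 ≤ q := (le_max_right _ _).trans hq
  have hqR2 : (2 : ℝ) ≤ q := by exact_mod_cast hq2
  have hqR : (1 : ℝ) ≤ q := by linarith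
  have hqp : (0 : ℝ) < q := by linarith
  have hqr : 4 < r0 * q := by
    have h1 : 4 / r0 ≤ ⌈4 / r0⌉₊ := Nat.le_ceil _
    have h2 : ((⌈4 / r0⌉₊ + 1 : ℕ) : ℝ) ≤ q := by exact_mod_cast hqq3
    push_cast at h2
    have h3 : 4 / r0 < q := by linarith
    rw [div_lt_iff₀ hr0] at h3
    linarith
  set η : ℝ := (q : ℝ) ^ (-δ') with hη
  have hη0 : 0 < η := by positivity
  set c1 : ℤ := ⌊(x - η) * q⌋ - 1 with hc1
  set c2 : ℤ := ⌈(x + η) * q⌉ with hc2
  have hc1' : (c1 : ℝ) + 1 ≤ (x - η) * q := by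
    rw [hc1]; push_cast
    have := Int.floor_le ((x - η) * q)
    linarith
  have hc1'' : (x - η) * q - 2 < c1 := by
    rw [hc1]; push_cast
    have := Int.lt_floor_add_one ((x - η) * q)
    linarith
  have hc2' : (x + η) * q ≤ c2 := Int.le_ceil _
  have hc2'' : (c2 : ℝ) < (x + η) * q + 1 := Int.ceil_lt_add_one _
  set m1 : ℤ := max N1 (min N2 c1) with hm1
  set m2 : ℤ := max m1 (min N2 c2) with hm2
  have hN1m1 : N1 ≤ m1 := le_max_left _ _
  have hm12 : m1 ≤ m2 := le_max_left _ _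
  have hm1N2 : m1 ≤ N2 := max_le hN (min_le_left _ _)
  have hm2N2 : m2 ≤ N2 := max_le hm1N2 (min_le_left _ _)
  rw [sum_Ioc_split hN1m1 (hm12.trans hm2N2), sum_Ioc_split hm12 hm2N2]
  have hpow1 : (q : ℝ) ^ (1 - ρ0) ≤ (q : ℝ) ^ (1 - ρ) :=
    Real.rpow_le_rpow_of_exponent_le hqR (by linarith)
  have hpow2 : 1 ≤ (q : ℝ) ^ (1 - ρ) := Real.one_le_rpow hqR (by linarith)
  have hηq : η * q = (q : ℝ) ^ (1 - δ') := by
    rw [hη]
    nth_rewrite 2 [← Real.rpow_one (q : ℝ)]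
    rw [← Real.rpow_add hqp]
    congr 1
    ring
  have hpow3 : η * q ≤ (q : ℝ) ^ (1 - ρ) := by
    rw [hηq]
    exact Real.rpow_le_rpow_of_exponent_le hqR (by linarith)
  -- the far blocks
  have block : ∀ N M : ℤ, N ≤ M → (N : ℝ) ≥ (x - r) * q → (M : ℝ) ≤ (x + r) * q →
      (N < M → ((M : ℝ) + 1 ≤ (x - η) * q ∨ (x + η) * q ≤ N)) →
      ‖∑ a ∈ Finset.Ioc N M, e (f * g ((a : ℝ) / q) + R.eval (a : ℝ))‖ ≤ (q : ℝ) ^ (1 - ρ) := by
    intro N M hNM hN1 hM1 hcase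
    rcases eq_or_lt_of_le hNM with heq | hlt
    · rw [heq]
      simp only [Finset.Ioc_self, Finset.sum_empty, norm_zero]
      linarith
    · obtain ⟨L, hL⟩ := Int.le.dest hNM
      have hLr : (L : ℝ) = (M : ℝ) - N := by
        rw [← hL]; push_cast; ring
      have hLq : L ≤ q := by
        have : (L : ℝ) ≤ q := by
          rw [hLr]
          nlinarith
        exact_mod_cast this
      rw [← hL, sum_Ioc_int]
      have key := hfar q hqq1 f R hR hf1 hf2 N L hLq (by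
        intro t ht1 ht2
        have ht3 : t * q ≤ M + 1 := by rw [hLr] at ht2; linarith
        have hlow : (x - r) * q ≤ t * q := le_trans hN1 ht1
        have hup : t * q ≤ (x + r) * q + 1 := by linarith
        have ha : -(r0) < t - x := by
          have : x - r ≤ t := le_of_mul_le_mul_right hlow hqp
          linarith
        have hb : t - x < r0 := by
          by_contra hcon
          push Not at hcon
          have h5 : (x + r0) * q ≤ t * q := by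
            apply mul_le_mul_of_nonneg_right _ hqp.le
            linarith
          have h6 : (r0 - r) * q ≤ 1 := by nlinarith
          have h7 : r0 / 2 * q ≤ (r0 - r) * q := by
            apply mul_le_mul_of_nonneg_right _ hqp.le
            linarith
          nlinarith
        refine ⟨?_, abs_lt.2 ⟨ha, hb⟩⟩
        rcases hcase hlt with h | h
        · have h8 : t * q ≤ (x - η) * q := ht3.trans h
          have h9 : t ≤ x - η := le_of_mul_le_mul_right h8 hqp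
          rw [abs_of_nonpos (by linarith)]
          linarith
        · have h8 : (x + η) * q ≤ t * q := h.trans ht1
          have h9 : x + η ≤ t := le_of_mul_le_mul_right h8 hqp
          rw [abs_of_nonneg (by linarith)]
          linarith)
      refine le_trans (le_of_eq ?_) (key.trans hpow1)
      congr 1
      refine sum_congr rfl fun n _ => ?_
      push_cast
      rfl
  have b1 := block N1 m1 hN1m1 hs (by
      have : (m1 : ℝ) ≤ N2 := by exact_mod_cast hm1N2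
      linarith) (by
      intro hlt
      left
      have h1 : m1 ≤ c1 := by
        rw [hm1] at hlt ⊢
        rcases le_total N1 (min N2 c1) with h | h
        · rw [max_eq_right h]; exact min_le_right _ _
        · rw [max_eq_left h] at hlt; exact absurd hlt (lt_irrefl _)
      have h2 : (m1 : ℝ) ≤ c1 := by exact_mod_cast h1
      linarith)
  have b3 := block m2 N2 hm2N2 (by
      have : (N1 : ℝ) ≤ m2 := by exact_mod_cast hN1m1.trans hm12
      linarith) ht (by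
      intro hlt
      right
      have h1 : c2 ≤ m2 := by
        have h2 : min N2 c2 ≤ m2 := le_max_right _ _
        rcases le_total N2 c2 with h | h
        · rw [min_eq_left h] at h2
          omega
        · rwa [min_eq_right h] at h2
      have h2 : (c2 : ℝ) ≤ m2 := by exact_mod_cast h1
      linarith)
  have b2 : ‖∑ a ∈ Finset.Ioc m1 m2, e (f * g ((a : ℝ) / q) + R.eval (a : ℝ))‖ ≤
      2 * (η * q) + 4 := by
    refine (norm_sum_e_le (fun a : ℤ => f * g ((a : ℝ) / q) + R.eval (a : ℝ)) _).trans ?_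
    rw [Int.card_Ioc]
    have h1 : m2 - m1 ≤ max 0 (c2 - c1) := by
      rcases le_total m1 (min N2 c2) with h | h
      · have h2 : m2 = min N2 c2 := by rw [hm2, max_eq_right h]
        have h3 : min N2 c1 ≤ m1 := le_max_right _ _
        rw [h2]
        omega
      · have h2 : m2 = m1 := by rw [hm2, max_eq_left h]
        rw [h2]
        simp
    have h2 : (((m2 - m1).toNat : ℕ) : ℝ) ≤ max 0 ((c2 : ℝ) - c1) := by
      have h3 : (((m2 - m1).toNat : ℕ) : ℤ) ≤ max 0 (c2 - c1) := by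
        omega
      have h4 : ((((m2 - m1).toNat : ℕ) : ℤ) : ℝ) ≤ ((max 0 (c2 - c1) : ℤ) : ℝ) := by
        exact_mod_cast h3
      push_cast at h4
      exact_mod_cast h4
    refine h2.trans (max_le (by positivity) ?_)
    nlinarith
  refine (norm_add_le _ _).trans ?_
  have k5 := norm_add_le
    (∑ a ∈ Finset.Ioc m1 m2, e (f * g ((a : ℝ) / q) + R.eval (a : ℝ)))
    (∑ a ∈ Finset.Ioc m2 N2, e (f * g ((a : ℝ) / q) + R.eval (a : ℝ)))
  calc _ ≤ (q : ℝ) ^ (1 - ρ) + ((2 * (η * q) + 4) + (q : ℝ) ^ (1 - ρ)) :=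
        add_le_add b1 (k5.trans (add_le_add b2 b3))
    _ ≤ 8 * (q : ℝ) ^ (1 - ρ) := by linarith

/-- the exponential sums over a compact interval -/
theorem glob {g : ℝ → ℝ} {u v : ℝ} (huv : u ≤ v) (hg : AnalyticOnNhd ℝ g (Set.Icc u v))
    (hne : ∀ x ∈ Set.Icc u v, ∀ m, ¬ ∀ᶠ t in 𝓝 x, iteratedDeriv m g t = 0) (d : ℕ) (A δ : ℝ)
    (hδ : 0 < δ) : Sm g d A δ u v := by
  have h1 : ∀ x : Set.Icc u v, ∃ r : ℝ, 0 < r ∧ Sm g d A δ (x - r) (x + r) := fun x =>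
    loc (hg x x.2) (hne x x.2) d A δ hδ
  choose r hr hS using h1
  obtain ⟨t, ht0, htm, ⟨m, hm⟩, htc⟩ := exists_monotone_Icc_subset_open_cover_Icc huv
    (c := fun x : Set.Icc u v => {y : Set.Icc u v | |(y : ℝ) - x| < r x})
    (fun x => by
      have : Continuous fun y : Set.Icc u v => |(y : ℝ) - x| := by fun_prop
      exact isOpen_lt this continuous_const)
    (fun x _ => by
      rw [Set.mem_iUnion]
      exact ⟨x, by simpa using hr x⟩)
  have h2 : ∀ n, Sm g d A δ u (t n) := by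
    intro n
    induction n with
    | zero =>
      obtain ⟨i, hi⟩ := htc 0
      rw [ht0]
      have h3 : (t 0 : Set.Icc u v) ∈ {y : Set.Icc u v | |(y : ℝ) - i| < r i} :=
        hi ⟨le_rfl, htm (Nat.zero_le _)⟩
      have h3' : |((t 0 : Set.Icc u v) : ℝ) - i| < r i := h3
      rw [ht0] at h3'
      rw [abs_lt] at h3'
      exact (hS i).mono (by linarith) (by linarith)
    | succ n ih =>
      obtain ⟨i, hi⟩ := htc n
      refine ih.glue ?_
      have h3 : |((t n : Set.Icc u v) : ℝ) - i| < r i :=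
        hi ⟨le_rfl, htm (Nat.le_succ _)⟩
      have h4 : |((t (n + 1) : Set.Icc u v) : ℝ) - i| < r i :=
        hi ⟨htm (Nat.le_succ _), le_rfl⟩
      rw [abs_lt] at h3 h4
      exact (hS i).mono (by linarith) (by linarith)
  have h3 := h2 m
  rw [hm m le_rfl] at h3
  exact h3

end Pool.Agent.W5h30.An
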