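import Pool.Agent.Y933.KG.Pm

/-!
# Exponential sums over the values of an analytic function at rational points: local bounds
-/

set_option autoImplicit false

namespace Pool.Agent.W5h30.An

open Finset Real Filter Topology Polynomial
open Pool.Agent.H469R2.NK (e norm_e e_add norm_sum_neg)

/-- local behaviour of an analytic function which does not vanish identically near `x` -/
lemma local_lower {G : ℝ → ℝ} {x : ℝ} (hG : AnalyticAt ℝ G x) (hne : ¬ ∀ᶠ t in 𝓝 x, G t = 0) :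
    ∃ (m : ℕ) (c C r : ℝ), 0 < c ∧ 0 < C ∧ 0 < r ∧ ∀ t : ℝ, |t - x| < r →
      c * |t - x| ^ m ≤ |G t| ∧ |G t| ≤ C := by
  obtain ⟨m, h, hh, hx, hev⟩ := hG.exists_eventuallyEq_pow_smul_nonzero_iff.2 hne
  have hcont := hh.continuousAt
  have h1 : ∀ᶠ t in 𝓝 x, |h x| / 2 < |h t| := by
    have h2 : Tendsto (fun t => |h t|) (𝓝 x) (𝓝 |h x|) := hcont.abs.tendsto
    refine h2.eventually (lt_mem_nhds ?_)
    have := abs_pos.2 hx
    linarith
  have h3 : ∀ᶠ t in 𝓝 x, |G t| < |G x| + 1 := by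
    have h2 : Tendsto (fun t => |G t|) (𝓝 x) (𝓝 |G x|) := hG.continuousAt.abs.tendsto
    exact h2.eventually (gt_mem_nhds (by linarith))
  obtain ⟨r, hr, hball⟩ := Metric.eventually_nhds_iff.1 ((hev.and h1).and h3)
  refine ⟨m, |h x| / 2, |G x| + 1, r, by have := abs_pos.2 hx; linarith, by positivity, hr, ?_⟩
  intro t ht
  obtain ⟨⟨h4, h5⟩, h6⟩ := hball (y := t) (by rwa [Real.dist_eq])
  refine ⟨?_, h6.le⟩
  rw [h4, smul_eq_mul, abs_mul, abs_pow, mul_comm]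
  gcongr

lemma an_iter {g : ℝ → ℝ} {t : ℝ} (hg : AnalyticAt ℝ g t) (m : ℕ) :
    AnalyticAt ℝ (iteratedDeriv m g) t := by
  rw [iteratedDeriv_eq_iterate]
  exact hg.iterated_deriv m

/-- the derivatives of the phase `g(X/q) + R(X)/f` -/
noncomputable def ph (g : ℝ → ℝ) (R : ℝ[X]) (f : ℝ) (q : ℕ) (m : ℕ) (X : ℝ) : ℝ :=
  ((q : ℝ)⁻¹) ^ m * iteratedDeriv m g (X / q) + (derivative^[m] R).eval X / f

lemma ph_der {g : ℝ → ℝ} {R : ℝ[X]} {f : ℝ} {q : ℕ} {m : ℕ} {X : ℝ}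
    (h : AnalyticAt ℝ (iteratedDeriv m g) (X / q)) :
    HasDerivAt (ph g R f q m) (ph g R f q (m + 1) X) X := by
  unfold ph
  have h1 : HasDerivAt (iteratedDeriv m g) (iteratedDeriv (m + 1) g (X / q)) (X / q) := by
    rw [iteratedDeriv_succ]
    exact h.differentiableAt.hasDerivAt
  have h2 : HasDerivAt (fun X : ℝ => X / (q : ℝ)) ((q : ℝ)⁻¹) X := by
    simpa [div_eq_mul_inv] using (hasDerivAt_id X).mul_const ((q : ℝ)⁻¹)
  have h3 := (h1.comp X h2).const_mul (((q : ℝ)⁻¹) ^ m)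
  have h4 : HasDerivAt (fun X => (derivative^[m] R).eval X) ((derivative^[m + 1] R).eval X) X := by
    rw [Function.iterate_succ_apply']
    exact (derivative^[m] R).hasDerivAt X
  have h5 := h3.add (h4.div_const f)
  refine h5.congr_deriv ?_
  rw [pow_succ]
  ring

/-- the sums over the integers of an interval, on one side of `x` and not too close to it -/
theorem far {g : ℝ → ℝ} {x : ℝ} (hg : AnalyticAt ℝ g x)
    (hne : ∀ m, ¬ ∀ᶠ t in 𝓝 x, iteratedDeriv m g t = 0) (d : ℕ) (A δ : ℝ) (hδ : 0 < δ) :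
    ∃ r : ℝ, 0 < r ∧ ∃ δ' : ℝ, 0 < δ' ∧ ∃ ρ : ℝ, 0 < ρ ∧ ∃ q0 : ℕ, ∀ q : ℕ, q0 ≤ q →
      ∀ (f : ℝ) (R : ℝ[X]), R.natDegree ≤ d → (q : ℝ) ^ δ ≤ |f| → |f| ≤ (q : ℝ) ^ A →
      ∀ (N : ℤ) (L : ℕ), L ≤ q →
      (∀ t : ℝ, (N : ℝ) ≤ t * q → t * q ≤ N + L + 1 → (q : ℝ) ^ (-δ') ≤ |t - x| ∧ |t - x| < r) →
      ‖∑ n ∈ range L, e (f * g (((N : ℝ) + 1 + n) / q) + R.eval ((N : ℝ) + 1 + n))‖ ≤
        (q : ℝ) ^ (1 - ρ) := by
  set K : ℕ := max (max ⌈A⌉₊ d) 1 with hK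
  have hK1 : 1 ≤ K := le_max_right _ _
  have hKd : d ≤ K := (le_max_right _ _).trans (le_max_left _ _)
  have hKA : A ≤ K := (Nat.le_ceil A).trans (by exact_mod_cast (le_max_left _ _).trans (le_max_left _ _))
  set μ : ℝ := min (1 / 4) (δ / 4) with hμ
  have hμ0 : 0 < μ := lt_min (by norm_num) (by positivity)
  have hμ1 : μ ≤ 1 / 4 := min_le_left _ _
  have hμδ : μ ≤ δ / 4 := min_le_right _ _
  obtain ⟨ρ, hρ, M0, hM0⟩ := Pool.Agent.Y933.KG.core_pm K hK1 μ hμ0 hμ1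
  obtain ⟨r0, hr0, hball⟩ := Metric.eventually_nhds_iff.1 hg.eventually_analyticAt
  obtain ⟨m, c, C, r1, hc, hC, hr1, h1⟩ := local_lower (an_iter hg (K + 1)) (hne (K + 1))
  obtain ⟨m2, c2, C2, r2, hc2, hC2, hr2, h2⟩ := local_lower (an_iter hg (K + 2)) (hne (K + 2))
  set r : ℝ := min (min r0 r1) (min r2 1) with hr
  have hrpos : 0 < r := by positivity
  have hrr0 : r ≤ r0 := (min_le_left _ _).trans (min_le_left _ _)
  have hrr1 : r ≤ r1 := (min_le_left _ _).trans (min_le_right _ _)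
  have hrr2 : r ≤ r2 := (min_le_right _ _).trans (min_le_left _ _)
  have hr1' : r ≤ 1 := (min_le_right _ _).trans (min_le_right _ _)
  set δ' : ℝ := μ / (8 * (m + 1)) with hδ'
  have hδ'0 : 0 < δ' := by positivity
  obtain ⟨M1, hM1⟩ := eventually_atTop.1
    (((Pool.Agent.Y933.KD.VdC.ev_le (C / c) (μ / 8) (by positivity)).and
    (Pool.Agent.Y933.KD.VdC.ev_le (1 / c) μ hμ0)).and
    (Pool.Agent.Y933.KD.VdC.ev_le c (μ / 2) (by positivity)))
  refine ⟨r, hrpos, δ', hδ'0, ρ, hρ, max (max M0 M1) 2, ?_⟩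
  intro q hq f R hR hf1 hf2 N L hL hfar
  have hqM0 : M0 ≤ q := (le_max_left _ _).trans ((le_max_left _ _).trans hq)
  have hqM1 : M1 ≤ q := (le_max_right _ _).trans ((le_max_left _ _).trans hq)
  have hq2 : 2 ≤ q := (le_max_right _ _).trans hq
  obtain ⟨⟨hq3, hq4⟩, hq5⟩ := hM1 q hqM1
  have hqR2 : (2 : ℝ) ≤ q := by exact_mod_cast hq2
  have hqR : (1 : ℝ) ≤ q := by linarith
  have hqp : (0 : ℝ) < q := by linarith
  have hf0 : 0 < |f| := lt_of_lt_of_le (by positivity) hf1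
  have hfne : f ≠ 0 := abs_pos.1 hf0
  -- the bounds for the derivatives
  set lo : ℝ := ((q : ℝ)⁻¹) ^ (K + 1) * (c * ((q : ℝ) ^ (-δ')) ^ m) with hlo
  set hi : ℝ := ((q : ℝ)⁻¹) ^ (K + 1) * C with hhi
  have hlopos : 0 < lo := by positivity
  have hdR : ∀ j, d + 1 ≤ j → derivative^[j] R = 0 := by
    intro j hj
    exact Polynomial.iterate_derivative_eq_zero (by omega)
  have hphK : ∀ j, d + 1 ≤ j → ∀ X, ph g R f q j X = ((q : ℝ)⁻¹) ^ j * iteratedDeriv j g (X / q) := by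
    intro j hj X
    unfold ph
    rw [hdR j hj]
    simp
  have hpt : ∀ X ∈ Set.Icc ((N : ℝ)) (N + L + 1), (q : ℝ) ^ (-δ') ≤ |X / q - x| ∧ |X / q - x| < r := by
    intro X hX
    refine hfar (X / q) ?_ ?_
    · rw [div_mul_cancel₀ _ hqp.ne']; exact hX.1
    · rw [div_mul_cancel₀ _ hqp.ne']; exact hX.2
  have hder : ∀ j, ∀ X ∈ Set.Icc ((N : ℝ)) (N + L + 1),
      HasDerivAt (ph g R f q j) (ph g R f q (j + 1) X) X := by
    intro j X hX
    apply ph_der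
    have h3 := hball (y := X / q) (by rw [Real.dist_eq]; exact (hpt X hX).2.trans_le hrr0)
    exact an_iter h3 j
  have hpp : ((q : ℝ) ^ (-δ')) ^ m = (q : ℝ) ^ (-(δ' * m)) := by
    rw [← Real.rpow_natCast, ← Real.rpow_mul hqp.le]
    congr 1
    ring
  have hδm : δ' * m ≤ μ / 8 := by
    rw [hδ', div_mul_eq_mul_div, div_le_iff₀ (by positivity)]
    have : (0 : ℝ) ≤ m := Nat.cast_nonneg m
    nlinarith
  have hK1' : ((q : ℝ)⁻¹) ^ (K + 1) = (q : ℝ) ^ (-((K : ℝ) + 1)) := by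
    rw [Real.rpow_neg hqp.le, inv_pow, ← Real.rpow_natCast]
    push_cast
    rfl
  have key := hM0 q hqM0 (N : ℝ) (N + L + 1) lo hi (ph g R f q) hlopos hder
    (by
      intro X hX
      rw [hphK (K + 1) (by omega), abs_mul, abs_of_pos (by positivity : 0 < ((q : ℝ)⁻¹) ^ (K + 1)), hlo]
      have h4 := (h1 (X / q) ((hpt X hX).2.trans_le hrr1)).1
      refine mul_le_mul_of_nonneg_left (le_trans ?_ h4) (by positivity)
      have h5 := (hpt X hX).1
      gcongr)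
    (by
      intro X hX
      rw [hphK (K + 1) (by omega), abs_mul, abs_of_pos (by positivity : 0 < ((q : ℝ)⁻¹) ^ (K + 1)), hhi]
      have h4 := (h1 (X / q) ((hpt X hX).2.trans_le hrr1)).2
      gcongr)
    (by
      intro X hX
      rw [hphK (K + 2) (by omega)]
      refine mul_ne_zero (by positivity) ?_
      have h4 := (h2 (X / q) ((hpt X hX).2.trans_le hrr2)).1
      have h5 := (hpt X hX).1
      have h6 : 0 < |X / q - x| := lt_of_lt_of_le (by positivity) h5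
      have h7 : 0 < c2 * |X / q - x| ^ m2 := by positivity
      exact abs_pos.1 (lt_of_lt_of_le h7 h4))
    f ((N : ℝ) + 1) L hL le_rfl (by linarith) hfne
    (by
      -- hi ≤ lo * M^(μ/4)
      rw [hhi, hlo, hpp]
      have h3 : C ≤ c * ((q : ℝ) ^ (-(δ' * m)) * (q : ℝ) ^ (μ / 4)) := by
        rw [← Real.rpow_add hqp]
        have h4 : (q : ℝ) ^ (μ / 8) ≤ (q : ℝ) ^ (-(δ' * m) + μ / 4) :=
          Real.rpow_le_rpow_of_exponent_le hqR (by linarith)
        rw [div_le_iff₀ hc] at hq3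
        calc C ≤ (q : ℝ) ^ (μ / 8) * c := hq3
          _ = c * (q : ℝ) ^ (μ / 8) := by ring
          _ ≤ _ := by gcongr
      calc ((q : ℝ)⁻¹) ^ (K + 1) * C ≤ ((q : ℝ)⁻¹) ^ (K + 1) *
            (c * ((q : ℝ) ^ (-(δ' * m)) * (q : ℝ) ^ (μ / 4))) := by gcongr
        _ = _ := by ring)
    (by
      -- |θ| * lo ≤ M^(-μ)
      rw [hlo, hpp, hK1']
      have h3 : |f| * ((q : ℝ) ^ (-((K : ℝ) + 1)) * (c * (q : ℝ) ^ (-(δ' * m)))) ≤
          (q : ℝ) ^ A * ((q : ℝ) ^ (-((K : ℝ) + 1)) * ((q : ℝ) ^ (μ / 2) * 1)) := by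
        gcongr
        exact Real.rpow_le_one_of_one_le_of_nonpos hqR (by
          have : 0 ≤ δ' * m := by positivity
          linarith)
      refine h3.trans ?_
      rw [mul_one, ← Real.rpow_add hqp, ← Real.rpow_add hqp]
      apply Real.rpow_le_rpow_of_exponent_le hqR
      linarith)
    (by
      rw [hlo, hpp, hK1']
      have h3 : (q : ℝ) ^ δ * ((q : ℝ) ^ (-((K : ℝ) + 1)) * (c * (q : ℝ) ^ (-(δ' * m)))) ≤
          |f| * ((q : ℝ) ^ (-((K : ℝ) + 1)) * (c * (q : ℝ) ^ (-(δ' * m)))) := by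
        gcongr
      refine le_trans ?_ h3
      have h4 : (q : ℝ) ^ (-μ) ≤ c := by
        rw [Real.rpow_neg hqp.le]
        rw [div_le_iff₀ hc] at hq4
        rw [inv_le_iff_one_le_mul₀ (by positivity)]
        linarith
      have h5 : (q : ℝ) ^ (-((K : ℝ) + 1) + μ) ≤
          (q : ℝ) ^ δ * ((q : ℝ) ^ (-((K : ℝ) + 1)) * ((q : ℝ) ^ (-μ) * (q : ℝ) ^ (-(δ' * m)))) := by
        rw [← Real.rpow_add hqp, ← Real.rpow_add hqp, ← Real.rpow_add hqp]
        apply Real.rpow_le_rpow_of_exponent_le hqR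
        linarith
      refine h5.trans ?_
      gcongr)
  refine le_trans (le_of_eq ?_) key
  congr 1
  refine sum_congr rfl fun n _ => ?_
  congr 1
  unfold ph
  simp only [pow_zero, one_mul, iteratedDeriv_zero, Function.iterate_zero, id]
  rw [mul_add]
  congr 1
  field_simp

end Pool.Agent.W5h30.An
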