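import Pool.Agent.W5h30.An.Pui

/-!
# The real solutions of `P(x) = t` for large `t`
-/

set_option autoImplicit false

namespace Pool.Agent.W5h30.An

open Finset Real Filter Topology Polynomial

lemma bdd_above_of (P : ℝ[X]) (X0 : ℝ) : ∃ t0 : ℝ, ∀ x, 0 ≤ x → x ≤ X0 → P.eval x < t0 := by
  obtain ⟨C, hC⟩ := (isCompact_Icc (a := (0 : ℝ)) (b := X0)).bddAbove_image P.continuous.continuousOn
  refine ⟨C + 1, fun x h0 h1 => ?_⟩
  have := hC ⟨x, ⟨h0, h1⟩, rfl⟩
  linarith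

/-- no large values for a negative leading coefficient -/
lemma neg_case (P : ℝ[X]) (hP : 2 ≤ P.natDegree) (hlc : P.leadingCoeff < 0) :
    ∃ t0 : ℝ, ∀ x, 0 ≤ x → P.eval x < t0 := by
  have hdeg : 0 < P.degree := by
    rw [← natDegree_pos_iff_degree_pos]
    omega
  have h1 := P.tendsto_atBot_of_leadingCoeff_nonpos hdeg hlc.le
  obtain ⟨X0, hX0⟩ := eventually_atTop.1 (h1.eventually_lt_atBot 0)
  obtain ⟨t1, ht1⟩ := bdd_above_of P X0
  refine ⟨max t1 1, fun x hx => ?_⟩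
  rcases le_total x X0 with h | h
  · exact (ht1 x hx h).trans_le (le_max_left _ _)
  · have := hX0 x h
    have h2 := le_max_right t1 1
    linarith

/-- the positive solutions for a positive leading coefficient -/
theorem pos_case (P : ℝ[X]) (hP : 2 ≤ P.natDegree) (hlc : 0 < P.leadingCoeff) :
    ∃ h : ℝ → ℝ, AnalyticAt ℝ h 0 ∧ h 0 ≠ 0 ∧ ∃ t0 : ℝ, ∀ x, 0 ≤ x → t0 ≤ P.eval x →
      x = (P.eval x) ^ (1 / (P.natDegree : ℝ)) *
        h ((P.eval x) ^ (-(1 / (P.natDegree : ℝ)))) := by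
  set d : ℕ := P.natDegree with hd
  have hd0 : (0 : ℝ) < d := by exact_mod_cast (by omega : 0 < d)
  set Q : ℝ → ℝ := fun u => P.reverse.eval u with hQ
  have hQ0 : Q 0 = P.leadingCoeff := by
    rw [hQ]
    simp only
    rw [← coeff_zero_eq_eval_zero, coeff_zero_reverse]
  have hQa : AnalyticAt ℝ Q 0 := by
    have : AnalyticOnNhd ℝ Q Set.univ := AnalyticOnNhd.eval_polynomial P.reverse
    exact this 0 (Set.mem_univ _)
  have hQp : 0 < Q 0 := by rw [hQ0]; exact hlc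
  set f : ℝ → ℝ := fun u => u * Real.exp (-(1 / (d : ℝ)) * Real.log (Q u)) with hf
  have hEa : AnalyticAt ℝ (fun u => Real.exp (-(1 / (d : ℝ)) * Real.log (Q u))) 0 :=
    (analyticAt_const.mul (hQa.log hQp)).rexp'
  have hfa : AnalyticAt ℝ f 0 := analyticAt_id.mul hEa
  have hf0 : f 0 = 0 := by simp [hf]
  have hf' : deriv f 0 ≠ 0 := by
    have h1 : HasDerivAt f (1 * Real.exp (-(1 / (d : ℝ)) * Real.log (Q 0)) +
        0 * deriv (fun u => Real.exp (-(1 / (d : ℝ)) * Real.log (Q u))) 0) 0 :=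
      (hasDerivAt_id (0 : ℝ)).mul hEa.differentiableAt.hasDerivAt
    rw [h1.deriv, one_mul, zero_mul, add_zero]
    exact (Real.exp_pos _).ne'
  set k : ℝ → ℝ := hfa.hasStrictDerivAt.localInverse _ _ _ hf' with hk
  have hka : AnalyticAt ℝ k 0 := by
    have := hfa.analyticAt_localInverse hf'
    rw [hf0] at this
    exact this
  have hleft : ∀ᶠ u in 𝓝 (0 : ℝ), k (f u) = u :=
    HasStrictDerivAt.eventually_left_inverse hfa.hasStrictDerivAt hf'
  have hk0 : k 0 = 0 := by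
    have := hleft.self_of_nhds
    rwa [hf0] at this
  have hk' : deriv k 0 ≠ 0 := by
    have h1 : HasStrictDerivAt k (deriv f 0)⁻¹ (f 0) :=
      HasStrictDerivAt.to_localInverse hfa.hasStrictDerivAt hf'
    rw [hf0] at h1
    rw [h1.hasDerivAt.deriv]
    exact inv_ne_zero hf'
  -- the function `k z / z`
  obtain ⟨p, hp⟩ := hka
  have hk1a : AnalyticAt ℝ (dslope k 0) 0 := ⟨_, hp.has_fpower_series_dslope_fslope⟩
  have hk10 : dslope k 0 0 ≠ 0 := by rw [dslope_same]; exact hk'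
  have hk1 : ∀ z, k z = z * dslope k 0 z := by
    intro z
    have := sub_smul_dslope k 0 z
    rw [hk0, sub_zero, sub_zero, smul_eq_mul] at this
    exact this.symm
  refine ⟨fun z => (dslope k 0 z)⁻¹, hk1a.inv hk10, inv_ne_zero hk10, ?_⟩
  -- large `x`
  have hinv : Tendsto (fun x : ℝ => x⁻¹) atTop (𝓝 0) := tendsto_inv_atTop_zero
  have hQev : ∀ᶠ u in 𝓝 (0 : ℝ), 0 < Q u := hQa.continuousAt.eventually_const_lt hQp
  obtain ⟨X0, hX0⟩ := eventually_atTop.1 ((hinv.eventually (hleft.and hQev)).and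
    (eventually_gt_atTop 0))
  obtain ⟨t1, ht1⟩ := bdd_above_of P X0
  refine ⟨t1, fun x hx ht => ?_⟩
  have hxX : X0 ≤ x := by
    by_contra hcon
    push Not at hcon
    have := ht1 x hx hcon.le
    linarith
  obtain ⟨⟨h1, h2⟩, hx0⟩ := hX0 x hxX
  have hPx : P.eval x = x ^ d * Q x⁻¹ := by
    let _ := invertibleOfNonzero hx0.ne'
    have h3 := eval₂_reverse_mul_pow (RingHom.id ℝ) x P
    rw [invOf_eq_inv] at h3
    rw [eval₂_id, eval₂_id] at h3
    rw [← h3, mul_comm]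
  have hxd : (0 : ℝ) < x ^ d := by positivity
  have hPp : 0 < P.eval x := by rw [hPx]; positivity
  have hz : (P.eval x) ^ (-(1 / (d : ℝ))) = f x⁻¹ := by
    rw [hPx, Real.mul_rpow hxd.le h2.le, hf]
    simp only
    congr 1
    · rw [← Real.rpow_natCast, ← Real.rpow_mul hx0.le]
      rw [show (d : ℝ) * -(1 / (d : ℝ)) = -1 by field_simp]
      rw [Real.rpow_neg_one]
    · rw [Real.rpow_def_of_pos h2]
      congr 1
      ring
  have hz2 : (P.eval x) ^ (1 / (d : ℝ)) = (f x⁻¹)⁻¹ := by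
    rw [← hz, Real.rpow_neg hPp.le, inv_inv]
  rw [hz, hz2, ← mul_inv, ← hk1, h1, inv_inv]

end Pool.Agent.W5h30.An
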