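import Pool.Agent.W5h30.An.Seq2

/-!
# Functions of Puiseux type at infinity: `t ^ θ h(t ^ (-β))` with `h` analytic at `0`
-/

set_option autoImplicit false

namespace Pool.Agent.W5h30.An

open Finset Real Filter Topology

/-- the functions in the derivatives -/
noncomputable def hk (θ β : ℝ) (h : ℝ → ℝ) : ℕ → ℝ → ℝ
  | 0 => h
  | (k + 1) => fun z => (θ - k) * hk θ β h k z - β * z * deriv (hk θ β h k) z

lemma hk_analytic (θ β : ℝ) {h : ℝ → ℝ} {r : ℝ} (hh : AnalyticOnNhd ℝ h (Metric.ball 0 r)) (k : ℕ) :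
    AnalyticOnNhd ℝ (hk θ β h k) (Metric.ball 0 r) := by
  induction k with
  | zero => exact hh
  | succ k ih =>
    intro z hz
    have h1 := ih z hz
    have h2 : AnalyticAt ℝ (deriv (hk θ β h k)) z := h1.deriv
    exact (analyticAt_const.mul h1).sub ((analyticAt_const.mul analyticAt_id).mul h2)

lemma hk_zero (θ β : ℝ) (h : ℝ → ℝ) (k : ℕ) :
    hk θ β h (k + 1) 0 = (θ - k) * hk θ β h k 0 := by
  simp [hk]

lemma hk_ne (θ β : ℝ) {h : ℝ → ℝ} (h0 : h 0 ≠ 0) (hθ : ∀ n : ℕ, θ ≠ n) (k : ℕ) :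
    hk θ β h k 0 ≠ 0 := by
  induction k with
  | zero => exact h0
  | succ k ih =>
    rw [hk_zero]
    exact mul_ne_zero (sub_ne_zero.2 (hθ k)) ih

/-- the derivatives -/
noncomputable def pk (θ β : ℝ) (h : ℝ → ℝ) (k : ℕ) (x : ℝ) : ℝ :=
  x ^ (θ - k) * hk θ β h k (x ^ (-β))

lemma pk_der (θ β : ℝ) {h : ℝ → ℝ} {r : ℝ} (hh : AnalyticOnNhd ℝ h (Metric.ball 0 r)) (k : ℕ)
    {x : ℝ} (hx : 0 < x) (hxr : x ^ (-β) < r) :
    HasDerivAt (pk θ β h k) (pk θ β h (k + 1) x) x := by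
  have hz : x ^ (-β) ∈ Metric.ball (0 : ℝ) r := by
    rw [Metric.mem_ball, dist_zero_right, Real.norm_of_nonneg (by positivity)]
    exact hxr
  have h1 : HasDerivAt (hk θ β h k) (deriv (hk θ β h k) (x ^ (-β))) (x ^ (-β)) :=
    (hk_analytic θ β hh k _ hz).differentiableAt.hasDerivAt
  have h2 : HasDerivAt (fun y : ℝ => y ^ (-β)) (-β * x ^ (-β - 1)) x :=
    Real.hasDerivAt_rpow_const (Or.inl hx.ne')
  have h3 := HasDerivAt.comp x h1 h2
  have h4 : HasDerivAt (fun y : ℝ => y ^ (θ - k)) ((θ - k) * x ^ (θ - k - 1)) x :=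
    Real.hasDerivAt_rpow_const (Or.inl hx.ne')
  have h5 := h4.mul h3
  refine h5.congr_deriv ?_
  unfold pk
  simp only [hk, Function.comp_apply]
  have e1 : x ^ (θ - ((k + 1 : ℕ) : ℝ)) = x ^ (θ - k - 1) := by
    congr 1
    push_cast
    ring
  have e2 : x ^ (θ - (k : ℝ)) * x ^ (-β - 1) = x ^ (θ - k - 1) * x ^ (-β) := by
    rw [← Real.rpow_add hx, ← Real.rpow_add hx]
    congr 1
    ring
  rw [e1]
  calc (θ - k) * x ^ (θ - k - 1) * hk θ β h k (x ^ (-β)) +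
        x ^ (θ - (k : ℝ)) * (deriv (hk θ β h k) (x ^ (-β)) * (-β * x ^ (-β - 1)))
      = (θ - k) * x ^ (θ - k - 1) * hk θ β h k (x ^ (-β)) -
        β * deriv (hk θ β h k) (x ^ (-β)) * (x ^ (θ - (k : ℝ)) * x ^ (-β - 1)) := by ring
    _ = _ := by rw [e2]; ring

/-- functions of Puiseux type are regular -/
theorem regL_pk {θ β : ℝ} (hβ : 0 < β) (hθ : ∀ n : ℕ, θ ≠ n) {h : ℝ → ℝ} (hh : AnalyticAt ℝ h 0)
    (h0 : h 0 ≠ 0) : ∃ x0 : ℝ, 1 ≤ x0 ∧ RegL (-θ) 0 x0 (pk θ β h) := by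
  obtain ⟨r, hr, hball⟩ := hh.exists_ball_analyticOnNhd
  have hlim : Tendsto (fun x : ℝ => x ^ (-β)) atTop (𝓝 0) := tendsto_rpow_neg_atTop hβ
  obtain ⟨x1, hx1⟩ := eventually_atTop.1 (hlim.eventually_lt_const hr)
  refine ⟨max x1 1, le_max_right _ _, ⟨?_, ?_⟩⟩
  · intro m x hx
    have hx0 : 0 < x := by linarith [(le_max_right x1 1).trans hx]
    exact pk_der θ β hball m hx0 (hx1 x ((le_max_left _ _).trans hx))
  · intro m _
    have hne := hk_ne θ β h0 hθ m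
    have hcont : ContinuousAt (hk θ β h m) 0 :=
      (hk_analytic θ β hball m 0 (Metric.mem_ball_self hr)).continuousAt
    have hpos : 0 < |hk θ β h m 0| := abs_pos.2 hne
    have hl : Tendsto (fun x : ℝ => |hk θ β h m (x ^ (-β))|) atTop (𝓝 |hk θ β h m 0|) :=
      ((hcont.tendsto.comp hlim)).abs
    obtain ⟨y0, hy0⟩ := eventually_atTop.1 ((hl.eventually_const_lt
      (by linarith : |hk θ β h m 0| / 2 < |hk θ β h m 0|)).and (hl.eventually_lt_const
      (by linarith : |hk θ β h m 0| < 2 * |hk θ β h m 0|)))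
    refine ⟨|hk θ β h m 0| / 2, 2 * |hk θ β h m 0|, max y0 1, by positivity, by positivity, ?_⟩
    intro x hx
    obtain ⟨h1, h2⟩ := hy0 x ((le_max_left _ _).trans hx)
    have hx0 : 0 < x := by linarith [(le_max_right y0 1).trans hx]
    have e1 : x ^ (-(-θ) - (m : ℝ)) = x ^ (θ - m) := by rw [neg_neg]
    have hxp : 0 < x ^ (θ - (m : ℝ)) := by positivity
    unfold pk
    rw [e1, abs_mul, abs_of_pos hxp]
    constructor
    · rw [mul_comm]
      gcongr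
    · rw [mul_comm]
      gcongr

end Pool.Agent.W5h30.An
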