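import Pool.Agent.W5h30.An.Fam

/-!
# Sequences with smooth interpolation: the values at the integers of dyadic intervals
-/

set_option autoImplicit false

namespace Pool.Agent.W5h30.An

open Finset Real Filter Topology Polynomial MeasureTheory
open Pool.Agent.H469R2.NK (e norm_e e_add norm_sum_neg)
open Pool.Agent.Y933.KD (unif hat Good wd size_freq integral_unif unif_prob normal_gen)

/-- `φ m` is the `m`-th derivative of `φ 0`, and of the order `x ^ (-α - m)` for `m ≥ 1` -/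
structure Reg (α : ℝ) (φ : ℕ → ℝ → ℝ) : Prop where
  der : ∀ m, ∀ x : ℝ, 1 ≤ x → HasDerivAt (φ m) (φ (m + 1) x) x
  size : ∀ m : ℕ, 1 ≤ m → ∃ c C x0 : ℝ, 0 < c ∧ 0 < C ∧ ∀ x : ℝ, x0 ≤ x →
    c * x ^ (-α - (m : ℝ)) ≤ |φ m x| ∧ |φ m x| ≤ C * x ^ (-α - (m : ℝ))

/-- the distributions of the numbers `ω φ(n) + R(n)`, `M < n ≤ 2 M` -/
def SQ (φ : ℕ → ℝ → ℝ) (κ W : ℝ) (d : ℕ) (M : ℕ) : Set (Measure ℝ) :=
  {P | ∃ (ω : ℝ) (R : ℝ[X]), R.natDegree ≤ d ∧ (M : ℝ) ^ κ ≤ |ω| ∧ |ω| ≤ (M : ℝ) ^ W ∧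
    (Finset.Ioc M (2 * M)).Nonempty ∧
    P = unif (Finset.Ioc M (2 * M)) (fun n : ℕ => ω * φ 0 n + R.eval (n : ℝ))}

lemma SQ_prob {φ : ℕ → ℝ → ℝ} {κ W : ℝ} {d : ℕ} (M : ℕ) (_hM : 1 ≤ M) (P : Measure ℝ)
    (hP : P ∈ SQ φ κ W d M) : IsProbabilityMeasure P := by
  obtain ⟨ω, R, _, _, _, hne, rfl⟩ := hP
  exact unif_prob hne _

/-- the exponential sums -/
theorem sum_SQ {α : ℝ} {φ : ℕ → ℝ → ℝ} (hφ : Reg α φ) (d : ℕ) (A δ : ℝ) (hδ : 0 < δ) :
    ∃ ρ : ℝ, 0 < ρ ∧ ∃ M0 : ℕ, ∀ M : ℕ, M0 ≤ M → ∀ (f : ℝ) (R : ℝ[X]), R.natDegree ≤ d →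
      (M : ℝ) ^ (α + δ) ≤ |f| → |f| ≤ (M : ℝ) ^ A →
      ‖∑ n ∈ Finset.Ioc M (2 * M), e (f * φ 0 n + R.eval (n : ℝ))‖ ≤ (M : ℝ) ^ (1 - ρ) := by
  set K : ℕ := max (max ⌈A - α⌉₊ d) 1 with hK
  have hK1 : 1 ≤ K := le_max_right _ _
  have hKd : d ≤ K := (le_max_right _ _).trans (le_max_left _ _)
  have hKA : A - α ≤ K :=
    (Nat.le_ceil (A - α)).trans (by exact_mod_cast (le_max_left _ _).trans (le_max_left _ _))
  set μ : ℝ := min (1 / 4) (δ / 4) with hμ
  have hμ0 : 0 < μ := lt_min (by norm_num) (by positivity)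
  have hμ1 : μ ≤ 1 / 4 := min_le_left _ _
  have hμδ : μ ≤ δ / 4 := min_le_right _ _
  obtain ⟨ρ, hρ, M0, hM0⟩ := Pool.Agent.Y933.KG.core_pm K hK1 μ hμ0 hμ1
  obtain ⟨c, C, x1, hc, hC, h1⟩ := hφ.size (K + 1) (by omega)
  obtain ⟨c2, C2, x2, hc2, hC2, h2⟩ := hφ.size (K + 2) (by omega)
  -- the exponents
  set E : ℝ := -α - (K + 1 : ℕ) with hE
  set c' : ℝ := c * min 1 ((3 : ℝ) ^ E) with hc'
  set C' : ℝ := C * max 1 ((3 : ℝ) ^ E) with hC'
  have hc'0 : 0 < c' := mul_pos hc (lt_min one_pos (by positivity))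
  have hC'0 : 0 < C' := mul_pos hC (lt_max_of_lt_left one_pos)
  obtain ⟨M1, hM1⟩ := eventually_atTop.1
    (((Pool.Agent.Y933.KD.VdC.ev_le (C' / c') (μ / 4) (by positivity)).and
    (Pool.Agent.Y933.KD.VdC.ev_le (1 / c') μ hμ0)).and
    (Pool.Agent.Y933.KD.VdC.ev_le c' (1 / 2) (by norm_num)))
  refine ⟨ρ, hρ, max (max M0 M1) (max (max ⌈x1⌉₊ ⌈x2⌉₊) 1), ?_⟩
  intro M hM f R hR hf1 hf2
  have hMM0 : M0 ≤ M := (le_max_left _ _).trans ((le_max_left _ _).trans hM)
  have hMM1 : M1 ≤ M := (le_max_right _ _).trans ((le_max_left _ _).trans hM)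
  have hMx1 : x1 ≤ M := (Nat.le_ceil x1).trans
    (by exact_mod_cast (le_max_left _ _).trans ((le_max_left _ _).trans ((le_max_right _ _).trans hM)))
  have hMx2 : x2 ≤ M := (Nat.le_ceil x2).trans
    (by exact_mod_cast (le_max_right _ _).trans ((le_max_left _ _).trans ((le_max_right _ _).trans hM)))
  have hM2 : 1 ≤ M := (le_max_right _ _).trans ((le_max_right _ _).trans hM)
  obtain ⟨⟨hq3, hq4⟩, hq5⟩ := hM1 M hMM1
  have hMR : (1 : ℝ) ≤ M := by exact_mod_cast hM2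
  have hMp : (0 : ℝ) < M := by linarith
  have hf0 : 0 < |f| := lt_of_lt_of_le (by positivity) hf1
  have hfne : f ≠ 0 := abs_pos.1 hf0
  -- powers on the interval
  have hpow : ∀ X : ℝ, (M : ℝ) ≤ X → X ≤ 2 * M + 1 →
      min 1 ((3 : ℝ) ^ E) * (M : ℝ) ^ E ≤ X ^ E ∧ X ^ E ≤ max 1 ((3 : ℝ) ^ E) * (M : ℝ) ^ E := by
    intro X hX1 hX2
    have hXp : 0 < X := by linarith
    have hX : X = (X / M) * M := by field_simp
    have hr1 : 1 ≤ X / M := by rw [le_div_iff₀ hMp]; linarith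
    have hr2 : X / M ≤ 3 := by rw [div_le_iff₀ hMp]; linarith
    have hmul : X ^ E = (X / M) ^ E * (M : ℝ) ^ E := by
      rw [← Real.mul_rpow (by positivity) hMp.le, div_mul_cancel₀ _ hMp.ne']
    rw [hmul]
    have hME : 0 < (M : ℝ) ^ E := by positivity
    rcases le_total 0 E with hE0 | hE0
    · have g1 : 1 ≤ (X / M) ^ E := Real.one_le_rpow hr1 hE0
      have g2 : (X / M) ^ E ≤ (3 : ℝ) ^ E := Real.rpow_le_rpow (by linarith) hr2 hE0
      constructor
      · gcongr; exact (min_le_left _ _).trans g1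
      · gcongr; exact g2.trans (le_max_right _ _)
    · have g1 : (X / M) ^ E ≤ 1 := Real.rpow_le_one_of_one_le_of_nonpos hr1 hE0
      have g2 : (3 : ℝ) ^ E ≤ (X / M) ^ E :=
        Real.rpow_le_rpow_of_nonpos (by linarith) hr2 hE0
      constructor
      · gcongr; exact (min_le_right _ _).trans g2
      · gcongr; exact g1.trans (le_max_left _ _)
  set ψ : ℕ → ℝ → ℝ := fun m X => φ m X + (derivative^[m] R).eval X / f with hψ
  have hdR : ∀ j, d + 1 ≤ j → derivative^[j] R = 0 := by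
    intro j hj
    exact Polynomial.iterate_derivative_eq_zero (by omega)
  have hψK : ∀ j, d + 1 ≤ j → ∀ X, ψ j X = φ j X := by
    intro j hj X
    simp only [hψ, hdR j hj]
    simp
  have hder : ∀ j, ∀ X ∈ Set.Icc ((M : ℝ)) (2 * M + 1), HasDerivAt (ψ j) (ψ (j + 1) X) X := by
    intro j X hX
    have h4 : HasDerivAt (fun X => (derivative^[j] R).eval X) ((derivative^[j + 1] R).eval X) X := by
      rw [Function.iterate_succ_apply']
      exact (derivative^[j] R).hasDerivAt X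
    exact (hφ.der j X (by linarith [hX.1])).add (h4.div_const f)
  have hMK : (M : ℝ) ^ E = (M : ℝ) ^ (-α) * (M : ℝ) ^ (-((K : ℝ) + 1)) := by
    rw [← Real.rpow_add hMp, hE]
    congr 1
    push_cast
    ring
  have hME : 0 < (M : ℝ) ^ E := by positivity
  have key := hM0 M hMM0 (M : ℝ) (2 * M + 1) (c' * (M : ℝ) ^ E) (C' * (M : ℝ) ^ E) ψ (by positivity)
    hder
    (by
      intro X hX
      rw [hψK (K + 1) (by omega)]
      have h4 := (h1 X (hMx1.trans hX.1)).1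
      have h5 := (hpow X hX.1 hX.2).1
      calc c' * (M : ℝ) ^ E = c * (min 1 ((3 : ℝ) ^ E) * (M : ℝ) ^ E) := by rw [hc']; ring
        _ ≤ c * X ^ E := by gcongr
        _ ≤ _ := h4)
    (by
      intro X hX
      rw [hψK (K + 1) (by omega)]
      have h4 := (h1 X (hMx1.trans hX.1)).2
      have h5 := (hpow X hX.1 hX.2).2
      calc |φ (K + 1) X| ≤ C * X ^ E := h4
        _ ≤ C * (max 1 ((3 : ℝ) ^ E) * (M : ℝ) ^ E) := by gcongr
        _ = _ := by rw [hC']; ring)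
    (by
      intro X hX
      rw [hψK (K + 2) (by omega)]
      have h4 := (h2 X (hMx2.trans hX.1)).1
      have hXp : 0 < X := by linarith [hX.1]
      have h7 : 0 < c2 * X ^ (-α - ((K + 2 : ℕ) : ℝ)) := by positivity
      exact abs_pos.1 (lt_of_lt_of_le h7 h4))
    f ((M : ℝ) + 1) M le_rfl le_rfl (by linarith) hfne
    (by
      rw [div_le_iff₀ hc'0] at hq3
      calc C' * (M : ℝ) ^ E ≤ ((M : ℝ) ^ (μ / 4) * c') * (M : ℝ) ^ E := by gcongr
        _ = _ := by ring)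
    (by
      have h3 : |f| * (c' * (M : ℝ) ^ E) ≤ (M : ℝ) ^ A * ((M : ℝ) ^ (1 / 2 : ℝ) * (M : ℝ) ^ E) := by
        gcongr
      refine h3.trans ?_
      rw [hMK, ← Real.rpow_add hMp, ← Real.rpow_add hMp, ← Real.rpow_add hMp]
      apply Real.rpow_le_rpow_of_exponent_le hMR
      linarith)
    (by
      have h3 : (M : ℝ) ^ (α + δ) * (c' * (M : ℝ) ^ E) ≤ |f| * (c' * (M : ℝ) ^ E) := by
        gcongr
      refine le_trans ?_ h3
      have h4 : (M : ℝ) ^ (-μ) ≤ c' := by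
        rw [Real.rpow_neg hMp.le]
        rw [div_le_iff₀ hc'0] at hq4
        rw [inv_le_iff_one_le_mul₀ (by positivity)]
        linarith
      have h5 : (M : ℝ) ^ (-((K : ℝ) + 1) + μ) ≤
          (M : ℝ) ^ (α + δ) * ((M : ℝ) ^ (-μ) * ((M : ℝ) ^ (-α) * (M : ℝ) ^ (-((K : ℝ) + 1)))) := by
        rw [← Real.rpow_add hMp, ← Real.rpow_add hMp, ← Real.rpow_add hMp]
        apply Real.rpow_le_rpow_of_exponent_le hMR
        linarith
      refine h5.trans ?_
      rw [hMK]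
      gcongr)
  refine le_trans (le_of_eq ?_) key
  congr 1
  have e1 : ∀ a b : ℕ, ∀ F : ℕ → ℂ, ∑ m ∈ Finset.Ioc a (a + b), F m = ∑ n ∈ range b, F (a + 1 + n) := by
    intro a b F
    induction b with
    | zero => simp
    | succ b ih =>
      rw [sum_range_succ, ← ih, ← Nat.add_assoc, Finset.sum_Ioc_succ_top (by omega)]
      congr 2
      omega
  rw [two_mul, e1]
  refine sum_congr rfl fun n _ => ?_
  congr 1
  simp only [hψ, Function.iterate_zero, id]
  rw [mul_add]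
  push_cast
  congr 1
  field_simp

/-- the family has small Fourier coefficients -/
theorem good_SQ {α : ℝ} {φ : ℕ → ℝ → ℝ} (hφ : Reg α φ) (d : ℕ) (W : ℝ) {δ : ℝ} (hδ : 0 < δ)
    (B k : ℕ) (A : ℝ) : Good B k A (SQ φ (α + δ) W d) := by
  obtain ⟨ρ0, hρ0, q0, hS⟩ := sum_SQ hφ d (W + (1 + 1 + A * log B)) δ hδ
  refine ⟨min ρ0 1, by positivity, max q0 (max k 1), ?_⟩
  intro M hM P hP b n h hb hn hh hne0
  obtain ⟨ω, R, hR, hω1, hω2, hTne, rfl⟩ := hP
  have hMq0 : q0 ≤ M := le_of_max_le_left hM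
  have hMk : k ≤ M := le_of_max_le_left (le_of_max_le_right hM)
  have hM1' : 1 ≤ M := le_of_max_le_right (le_of_max_le_right hM)
  have hMR : (1 : ℝ) ≤ M := by exact_mod_cast hM1'
  have hMp : (0 : ℝ) < M := by linarith
  set l : ℤ := ∑ i, h i * (b i : ℤ) ^ n i with hl
  have hl1 : (1 : ℝ) ≤ |(l : ℝ)| := by
    have : (1 : ℤ) ≤ |l| := Int.one_le_abs hne0
    exact_mod_cast this
  have hl2 : |(l : ℝ)| ≤ (M : ℝ) ^ (1 + 1 + A * log B) := by
    refine (size_freq hM1' hMk b n h hb hn hh).trans ?_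
    apply Real.rpow_le_rpow_of_exponent_le hMR
    have := min_le_right ρ0 1
    linarith
  have hf1 : (M : ℝ) ^ (α + δ) ≤ |(l : ℝ) * ω| := by
    rw [abs_mul]
    have : 0 ≤ |ω| := abs_nonneg _
    nlinarith
  have hf2 : |(l : ℝ) * ω| ≤ (M : ℝ) ^ (W + (1 + 1 + A * log B)) := by
    rw [abs_mul, Real.rpow_add hMp, mul_comm]
    gcongr
  have hRl : (Polynomial.C (l : ℝ) * R).natDegree ≤ d := (natDegree_C_mul_le _ _).trans hR
  have key := hS M hMq0 _ (Polynomial.C (l : ℝ) * R) hRl hf1 hf2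
  have hcard : ((Finset.Ioc M (2 * M)).card : ℝ) = M := by
    rw [Nat.card_Ioc]
    congr 1
    omega
  unfold hat
  rw [integral_unif]
  have e1 : ∑ n ∈ Finset.Ioc M (2 * M), Pool.Agent.Y933.KD.e (l * (ω * φ 0 n + R.eval (n : ℝ))) =
      ∑ n ∈ Finset.Ioc M (2 * M), e ((l : ℝ) * ω * φ 0 n +
          (Polynomial.C (l : ℝ) * R).eval (n : ℝ)) := by
    refine sum_congr rfl fun a _ => ?_
    have : (l : ℝ) * (ω * φ 0 a + R.eval (a : ℝ)) = (l : ℝ) * ω * φ 0 a +
          (Polynomial.C (l : ℝ) * R).eval (a : ℝ) := by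
      rw [Polynomial.eval_mul, Polynomial.eval_C]
      ring
    rw [this]
    rfl
  rw [e1, norm_mul, norm_div, norm_one, Complex.norm_natCast, hcard, one_div, inv_mul_le_iff₀ hMp]
  refine key.trans ?_
  calc (M : ℝ) ^ (1 - ρ0) ≤ (M : ℝ) ^ (1 + -(min ρ0 1)) := by
        apply Real.rpow_le_rpow_of_exponent_le hMR
        have := min_le_left ρ0 1
        linarith
    _ = M * (M : ℝ) ^ (-(min ρ0 1)) := by rw [Real.rpow_add hMp, Real.rpow_one]

open Classical in
/-- windows which start later, more precisely -/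
lemma window' {b k j : ℕ} {y : ℝ} {s0 : ℕ} {L E : ℝ}
    (h : ∀ s N : ℕ, (s : ℝ) + N ≤ L →
      |(((Finset.range N).filter (fun i => wd b k (s + i) ((b : ℝ) ^ s0 * y) = j)).card : ℝ) -
        N / (b : ℝ) ^ k| ≤ E) (hE : 0 ≤ E) (hb : 1 ≤ b) (s N : ℕ) (hsN : (s : ℝ) + N ≤ L) :
    |(((Finset.range N).filter (fun i => wd b k (s + i) y = j)).card : ℝ) - N / (b : ℝ) ^ k| ≤
      E + ((s0 - s : ℕ) : ℝ) := by
  have hb' : (1 : ℝ) ≤ (b : ℝ) ^ k := one_le_pow₀ (by exact_mod_cast hb)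
  -- the number of places before `s0`
  obtain ⟨p, hp, hp1, hp2⟩ : ∃ p : ℕ, p ≤ N ∧ p ≤ s0 - s ∧ (p = N ∨ s0 ≤ s + p) := by
    rcases le_total N (s0 - s) with h1 | h1
    · exact ⟨N, le_rfl, by omega, Or.inl rfl⟩
    · exact ⟨s0 - s, h1, by omega, Or.inr (by omega)⟩
  obtain ⟨N', rfl⟩ := Nat.exists_eq_add_of_le hp
  have hcount : (((Finset.range (p + N')).filter (fun i => wd b k (s + i) y = j)).card : ℝ) =
      ((Finset.range p).filter (fun i => wd b k (s + i) y = j)).card +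
      ((Finset.range N').filter (fun i => wd b k (s + (p + i)) y = j)).card := by
    rw [card_filter, card_filter, card_filter, sum_range_add]
    push_cast
    rfl
  have hfirst : |(((Finset.range p).filter (fun i => wd b k (s + i) y = j)).card : ℝ) -
      p / (b : ℝ) ^ k| ≤ p := by
    have h1 : (((Finset.range p).filter (fun i => wd b k (s + i) y = j)).card : ℝ) ≤ p := by
      have := Finset.card_filter_le (Finset.range p) (fun i => wd b k (s + i) y = j)
      rw [card_range] at this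
      exact_mod_cast this
    have h2 : (0 : ℝ) ≤ ((Finset.range p).filter (fun i => wd b k (s + i) y = j)).card :=
      Nat.cast_nonneg _
    have h3 : (p : ℝ) / (b : ℝ) ^ k ≤ p := div_le_self (Nat.cast_nonneg _) hb'
    have h4 : 0 ≤ (p : ℝ) / (b : ℝ) ^ k := by positivity
    rw [abs_le]
    constructor <;> linarith
  have hpR : (p : ℝ) ≤ ((s0 - s : ℕ) : ℝ) := by exact_mod_cast hp1
  rcases hp2 with h2 | h2
  · have hN' : N' = 0 := by omega
    subst hN'
    rw [hcount]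
    simp only [range_zero, filter_empty, card_empty, Nat.cast_zero, add_zero]
    linarith
  · have h3 := h (s + p - s0) N' (by
      rw [Nat.cast_sub h2]
      push_cast at hsN ⊢
      have : (0 : ℝ) ≤ s0 := Nat.cast_nonneg _
      linarith)
    have h4 : ∀ i : ℕ, wd b k (s + p - s0 + i) ((b : ℝ) ^ s0 * y) = wd b k (s + (p + i)) y := by
      intro i
      rw [wd_shift]
      congr 1
      omega
    simp only [h4] at h3
    rw [hcount]
    push_cast
    have h5 : (((Finset.range p).filter (fun i => wd b k (s + i) y = j)).card : ℝ) +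
        ((Finset.range N').filter (fun i => wd b k (s + (p + i)) y = j)).card -
        ((p : ℝ) + N') / (b : ℝ) ^ k =
        ((((Finset.range p).filter (fun i => wd b k (s + i) y = j)).card : ℝ) - p / (b : ℝ) ^ k) +
        ((((Finset.range N').filter (fun i => wd b k (s + (p + i)) y = j)).card : ℝ) -
          N' / (b : ℝ) ^ k) := by ring
    rw [h5]
    refine (abs_add_le _ _).trans ?_
    linarith

open Classical in
/-- **almost all values are normal between `α log n` and a multiple of `log n`** -/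
theorem normal_seq {α : ℝ} (hα : 0 ≤ α) {φ : ℕ → ℝ → ℝ} (hφ : Reg α φ) (B w d : ℕ)
    (A W ε : ℝ) (hε : 0 < ε) :
    ∃ c : ℝ, 0 < c ∧ ∃ q0 : ℕ, ∀ q : ℕ, q0 ≤ q → ∀ (ω : ℝ) (R : ℝ[X]), R.natDegree ≤ d →
      (q : ℝ) ^ (-(ε / 16)) ≤ |ω| → |ω| ≤ (q : ℝ) ^ W →
      (((Finset.Ioc q (2 * q)).filter (fun n : ℕ => ¬ ∀ b k j s N : ℕ, 2 ≤ b → b ≤ B → 1 ≤ k →
        k ≤ w → j < b ^ k → (q : ℝ) ^ α ≤ (b : ℝ) ^ s → (s : ℝ) + N ≤ A * Real.log q →
        |(((Finset.range N).filter (fun i =>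
            wd b k (s + i) (ω * φ 0 n + R.eval (n : ℝ)) = j)).card : ℝ) -
          N / (b : ℝ) ^ k| ≤ ε * Real.log q)).card : ℝ) ≤ (q : ℝ) ^ (1 - c) := by
  set δ : ℝ := ε / 8 with hδ
  have hδ0 : 0 < δ := by positivity
  obtain ⟨c0, hc0, M0, hM0⟩ := normal_gen (ι := ℕ) (B := B) (w := w) (A := A) (ε := ε / 2)
    (by positivity) (S := SQ φ (α + ε / 16) (W + (α + δ + 1)) d) SQ_prob
    (good_SQ hφ d (W + (α + δ + 1)) (by positivity : 0 < ε / 16) B 1 A)
  obtain ⟨M1, hM1⟩ := eventually_atTop.1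
    ((Pool.Agent.Y933.KD.VdC.ev_le (B : ℝ) (c0 / 2) (by positivity)).and
    ((tendsto_log_atTop.comp tendsto_natCast_atTop_atTop).eventually_ge_atTop (4 / ε)))
  refine ⟨c0 / 2, by positivity, max (max M0 M1) (max B 2), ?_⟩
  intro q hq ω R hR hω1 hω2
  have hqM0 : M0 ≤ q := le_of_max_le_left (le_of_max_le_left hq)
  have hqM1 : M1 ≤ q := le_of_max_le_right (le_of_max_le_left hq)
  have hqB : B ≤ q := le_of_max_le_left (le_of_max_le_right hq)
  have hq2 : 2 ≤ q := le_of_max_le_right (le_of_max_le_right hq)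
  have hqR2 : (2 : ℝ) ≤ q := by exact_mod_cast hq2
  have hqR : (1 : ℝ) ≤ q := by linarith
  have hqp : (0 : ℝ) < q := by linarith
  obtain ⟨hbig1, hbig3⟩ := hM1 q hqM1
  simp only [Function.comp_apply] at hbig3
  have hlogq : 0 < Real.log q := Real.log_pos (by linarith)
  have hcardT : ((Finset.Ioc q (2 * q)).card : ℝ) = q := by
    rw [Nat.card_Ioc]
    congr 1
    omega
  have hTne : (Finset.Ioc q (2 * q)).Nonempty := by
    rw [Finset.nonempty_Ioc]
    omega
  -- one base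
  have hbase : ∀ b : ℕ, 2 ≤ b → b ≤ B → (((Finset.Ioc q (2 * q)).filter (fun n : ℕ =>
      ¬ ∀ k j s N : ℕ, 1 ≤ k → k ≤ w → j < b ^ k → (q : ℝ) ^ α ≤ (b : ℝ) ^ s →
        (s : ℝ) + N ≤ A * Real.log q →
        |(((Finset.range N).filter (fun i =>
            wd b k (s + i) (ω * φ 0 n + R.eval (n : ℝ)) = j)).card : ℝ) -
          N / (b : ℝ) ^ k| ≤ ε * Real.log q)).card : ℝ) ≤ q * (q : ℝ) ^ (-c0) := by
    intro b hb2 hbB
    have hbR : (2 : ℝ) ≤ b := by exact_mod_cast hb2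
    have hbp : (0 : ℝ) < b := by linarith
    have hlogb : 0 < Real.log b := Real.log_pos (by linarith)
    set s0 : ℕ := ⌈(α + δ) * Real.log q / Real.log b⌉₊ with hs0
    have hs1 : (α + δ) * Real.log q / Real.log b ≤ s0 := Nat.le_ceil _
    have hs2 : (s0 : ℝ) < (α + δ) * Real.log q / Real.log b + 1 :=
      Nat.ceil_lt_add_one (by positivity)
    have hbs1 : (q : ℝ) ^ (α + δ) ≤ (b : ℝ) ^ s0 := by
      rw [Real.rpow_def_of_pos hqp, ← Real.exp_log (by positivity : (0 : ℝ) < (b : ℝ) ^ s0),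
        Real.log_pow]
      apply Real.exp_le_exp.2
      rw [div_le_iff₀ hlogb] at hs1
      linarith
    have hbs2 : (b : ℝ) ^ s0 ≤ (q : ℝ) ^ (α + δ + 1) := by
      rw [Real.rpow_def_of_pos hqp, ← Real.exp_log (by positivity : (0 : ℝ) < (b : ℝ) ^ s0),
        Real.log_pow]
      apply Real.exp_le_exp.2
      have h1 : Real.log b ≤ Real.log q := Real.log_le_log hbp (by exact_mod_cast hbB.trans hqB)
      have h2 : (s0 : ℝ) * Real.log b ≤ ((α + δ) * Real.log q / Real.log b + 1) * Real.log b := by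
        gcongr
      rw [add_mul, div_mul_cancel₀ _ hlogb.ne'] at h2
      nlinarith
    have hs3 : ∀ s : ℕ, (q : ℝ) ^ α ≤ (b : ℝ) ^ s → ((s0 - s : ℕ) : ℝ) ≤ ε / 2 * Real.log q := by
      intro s hs
      have h1 : Real.log 2 ≤ Real.log b := Real.log_le_log (by norm_num) hbR
      have h2 : (1 : ℝ) / 2 ≤ Real.log b := by
        have := Real.log_two_gt_d9
        linarith
      have h3 : δ * Real.log q / Real.log b ≤ 2 * (δ * Real.log q) := by
        rw [div_le_iff₀ hlogb]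
        have : 0 < δ * Real.log q := by positivity
        nlinarith
      have h4 : 1 ≤ ε / 4 * Real.log q := by
        rw [div_le_iff₀ hε] at hbig3
        linarith
      have h5 : 2 * (δ * Real.log q) = ε / 4 * Real.log q := by rw [hδ]; ring
      have h6 : α * Real.log q / Real.log b ≤ s := by
        have h7 := Real.log_le_log (by positivity) hs
        rw [Real.log_rpow hqp, Real.log_pow] at h7
        rwa [div_le_iff₀ hlogb]
      have h8 : (α + δ) * Real.log q / Real.log b =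
          α * Real.log q / Real.log b + δ * Real.log q / Real.log b := by ring
      rcases le_total s0 s with h9 | h9
      · rw [Nat.sub_eq_zero_of_le h9]
        push_cast
        positivity
      · rw [Nat.cast_sub h9]
        linarith
    have key := hM0 q hqM0 (Finset.Ioc q (2 * q))
      (fun n : ℕ => (b : ℝ) ^ s0 * (ω * φ 0 n + R.eval (n : ℝ))) (by
      refine ⟨(b : ℝ) ^ s0 * ω, Polynomial.C ((b : ℝ) ^ s0) * R, (natDegree_C_mul_le _ _).trans hR,
        ?_, ?_, hTne, ?_⟩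
      · rw [abs_mul, abs_of_pos (by positivity)]
        calc (q : ℝ) ^ (α + ε / 16) = (q : ℝ) ^ (α + δ) * (q : ℝ) ^ (-(ε / 16)) := by
              rw [← Real.rpow_add hqp]
              congr 1
              rw [hδ]
              ring
          _ ≤ _ := by gcongr
      · rw [abs_mul, abs_of_pos (by positivity), Real.rpow_add hqp W, mul_comm]
        gcongr
      · congr 1
        funext a
        rw [Polynomial.eval_mul, Polynomial.eval_C]
        ring)
    rw [hcardT] at key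
    refine le_trans ?_ key
    refine Nat.cast_le.2 (Finset.card_le_card fun a ha => ?_)
    rw [Finset.mem_filter] at ha ⊢
    refine ⟨ha.1, fun hcon => ha.2 ?_⟩
    intro k j s N hk hkw hj hs hsN
    have h1 := window' (b := b) (k := k) (j := j) (s0 := s0) (L := A * Real.log q)
      (E := ε / 2 * Real.log q) (y := ω * φ 0 a + R.eval (a : ℝ))
      (fun s N h => hcon b k j s N hb2 hbB hk hkw hj h) (by positivity) (by omega) s N hsN
    refine h1.trans ?_
    have := hs3 s hs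
    linarith
  -- all bases
  have hsub : (Finset.Ioc q (2 * q)).filter (fun n : ℕ => ¬ ∀ b k j s N : ℕ, 2 ≤ b → b ≤ B →
        1 ≤ k → k ≤ w → j < b ^ k → (q : ℝ) ^ α ≤ (b : ℝ) ^ s → (s : ℝ) + N ≤ A * Real.log q →
        |(((Finset.range N).filter (fun i =>
            wd b k (s + i) (ω * φ 0 n + R.eval (n : ℝ)) = j)).card : ℝ) -
          N / (b : ℝ) ^ k| ≤ ε * Real.log q) ⊆
      (Finset.Icc 2 B).biUnion (fun b => (Finset.Ioc q (2 * q)).filter (fun n : ℕ =>
        ¬ ∀ k j s N : ℕ, 1 ≤ k → k ≤ w → j < b ^ k → (q : ℝ) ^ α ≤ (b : ℝ) ^ s →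
        (s : ℝ) + N ≤ A * Real.log q →
        |(((Finset.range N).filter (fun i =>
            wd b k (s + i) (ω * φ 0 n + R.eval (n : ℝ)) = j)).card : ℝ) -
          N / (b : ℝ) ^ k| ≤ ε * Real.log q)) := by
    intro a ha
    rw [Finset.mem_filter] at ha
    obtain ⟨haT, hbad⟩ := ha
    push Not at hbad
    obtain ⟨b, k, j, s, N, hb, hbB, hk, hkw, hj, hs, hsN, hlt⟩ := hbad
    rw [Finset.mem_biUnion]
    refine ⟨b, Finset.mem_Icc.2 ⟨hb, hbB⟩, ?_⟩
    rw [Finset.mem_filter]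
    refine ⟨haT, fun hcon => ?_⟩
    have := hcon k j s N hk hkw hj hs hsN
    linarith
  refine (Nat.cast_le.2 ((Finset.card_le_card hsub).trans Finset.card_biUnion_le)).trans ?_
  push_cast
  have h1 : ∑ b ∈ Finset.Icc 2 B, (((Finset.Ioc q (2 * q)).filter (fun n : ℕ =>
        ¬ ∀ k j s N : ℕ, 1 ≤ k → k ≤ w → j < b ^ k → (q : ℝ) ^ α ≤ (b : ℝ) ^ s →
        (s : ℝ) + N ≤ A * Real.log q →
        |(((Finset.range N).filter (fun i =>
            wd b k (s + i) (ω * φ 0 n + R.eval (n : ℝ)) = j)).card : ℝ) -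
          N / (b : ℝ) ^ k| ≤ ε * Real.log q)).card : ℝ) ≤
      ∑ b ∈ Finset.Icc 2 B, (q * (q : ℝ) ^ (-c0)) := by
    refine sum_le_sum fun b hb => ?_
    rw [Finset.mem_Icc] at hb
    exact hbase b hb.1 hb.2
  refine h1.trans ?_
  rw [sum_const, nsmul_eq_mul, Nat.card_Icc]
  have h2 : ((B + 1 - 2 : ℕ) : ℝ) ≤ B := by
    have : B + 1 - 2 ≤ B := by omega
    exact_mod_cast this
  calc ((B + 1 - 2 : ℕ) : ℝ) * (q * (q : ℝ) ^ (-c0))
      ≤ B * (q * (q : ℝ) ^ (-c0)) := by gcongr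
    _ ≤ (q : ℝ) ^ (c0 / 2) * (q * (q : ℝ) ^ (-c0)) := by gcongr
    _ = (q : ℝ) ^ (1 - c0 / 2) := by
        nth_rewrite 2 [← Real.rpow_one (q : ℝ)]
        rw [← Real.rpow_add hqp, ← Real.rpow_add hqp]
        congr 1
        ring

end Pool.Agent.W5h30.An
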