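import Pool.Agent.W5h30.An.Seq
import Pool.Agent.W5h30.SR.Shift

/-!
# Sequences with smooth interpolation, for large arguments; square root bounds
-/

set_option autoImplicit false

namespace Pool.Agent.W5h30.An

open Finset Real Filter Topology Polynomial MeasureTheory
open Pool.Agent.H469R2.NK (e norm_e e_add norm_sum_neg)
open Pool.Agent.W5h30.SR (SqW sqrt_T)

/-- `φ m` is the `m`-th derivative of `φ 0` on `[x0, ∞)`, and of the order `x ^ (-α - m)` for
`m ≥ m0` -/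
structure RegL (α : ℝ) (m0 : ℕ) (x0 : ℝ) (φ : ℕ → ℝ → ℝ) : Prop where
  der : ∀ m, ∀ x : ℝ, x0 ≤ x → HasDerivAt (φ m) (φ (m + 1) x) x
  size : ∀ m : ℕ, m0 ≤ m → ∃ c C y0 : ℝ, 0 < c ∧ 0 < C ∧ ∀ x : ℝ, y0 ≤ x →
    c * x ^ (-α - (m : ℝ)) ≤ |φ m x| ∧ |φ m x| ≤ C * x ^ (-α - (m : ℝ))

/-- the exponential sums -/
theorem sum_RegL {α x0 : ℝ} {m0 : ℕ} {φ : ℕ → ℝ → ℝ} (hφ : RegL α m0 x0 φ) (d : ℕ) (A δ : ℝ) (hδ : 0 < δ) :
    ∃ ρ : ℝ, 0 < ρ ∧ ∃ M0 : ℕ, ∀ M : ℕ, M0 ≤ M → ∀ (f : ℝ) (R : ℝ[X]), R.natDegree ≤ d →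
      (M : ℝ) ^ (α + δ) ≤ |f| → |f| ≤ (M : ℝ) ^ A →
      ‖∑ n ∈ Finset.Ioc M (2 * M), e (f * φ 0 n + R.eval (n : ℝ))‖ ≤ (M : ℝ) ^ (1 - ρ) := by
  set K : ℕ := max (max ⌈A - α⌉₊ (max d m0)) 1 with hK
  have hK1 : 1 ≤ K := le_max_right _ _
  have hKd : d ≤ K := (le_max_left _ _).trans ((le_max_right _ _).trans (le_max_left _ _))
  have hKm : m0 ≤ K := (le_max_right _ _).trans ((le_max_right _ _).trans (le_max_left _ _))
  have hKA : A - α ≤ K :=
    (Nat.le_ceil (A - α)).trans (by exact_mod_cast (le_max_left _ _).trans (le_max_left _ _))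
  set μ : ℝ := min (1 / 4) (δ / 4) with hμ
  have hμ0 : 0 < μ := lt_min (by norm_num) (by positivity)
  have hμ1 : μ ≤ 1 / 4 := min_le_left _ _
  have hμδ : μ ≤ δ / 4 := min_le_right _ _
  obtain ⟨ρ, hρ, M0, hM0⟩ := Pool.Agent.Y933.KG.core_pm K hK1 μ hμ0 hμ1
  obtain ⟨c, C, x1, hc, hC, h1⟩ := hφ.size (K + 1) (by omega)
  obtain ⟨c2, C2, x2, hc2, hC2, h2⟩ := hφ.size (K + 2) (by omega)
  -- the exponents
  set E : ℝ := -α - (K + 1 : ℕ) with hE
  set c' : ℝ := c * min 1 ((3 : ℝ) ^ E) with hc'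
  set C' : ℝ := C * max 1 ((3 : ℝ) ^ E) with hC'
  have hc'0 : 0 < c' := mul_pos hc (lt_min one_pos (by positivity))
  have hC'0 : 0 < C' := mul_pos hC (lt_max_of_lt_left one_pos)
  obtain ⟨M1, hM1⟩ := eventually_atTop.1
    (((Pool.Agent.Y933.KD.VdC.ev_le (C' / c') (μ / 4) (by positivity)).and
    (Pool.Agent.Y933.KD.VdC.ev_le (1 / c') μ hμ0)).and
    (Pool.Agent.Y933.KD.VdC.ev_le c' (1 / 2) (by norm_num)))
  refine ⟨ρ, hρ, max (max M0 M1) (max (max (max ⌈x1⌉₊ ⌈x2⌉₊) ⌈x0⌉₊) 1), ?_⟩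
  intro M hM f R hR hf1 hf2
  have hMM0 : M0 ≤ M := (le_max_left _ _).trans ((le_max_left _ _).trans hM)
  have hMM1 : M1 ≤ M := (le_max_right _ _).trans ((le_max_left _ _).trans hM)
  have hMx1 : x1 ≤ M := (Nat.le_ceil x1).trans
    (by exact_mod_cast (le_max_left _ _).trans ((le_max_left _ _).trans ((le_max_left _ _).trans
      ((le_max_right _ _).trans hM))))
  have hMx2 : x2 ≤ M := (Nat.le_ceil x2).trans
    (by exact_mod_cast (le_max_right _ _).trans ((le_max_left _ _).trans ((le_max_left _ _).trans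
      ((le_max_right _ _).trans hM))))
  have hMx0 : x0 ≤ M := (Nat.le_ceil x0).trans
    (by exact_mod_cast (le_max_right _ _).trans ((le_max_left _ _).trans
      ((le_max_right _ _).trans hM)))
  have hM2 : 1 ≤ M := (le_max_right _ _).trans ((le_max_right _ _).trans hM)
  obtain ⟨⟨hq3, hq4⟩, hq5⟩ := hM1 M hMM1
  have hMR : (1 : ℝ) ≤ M := by exact_mod_cast hM2
  have hMp : (0 : ℝ) < M := by linarith
  have hf0 : 0 < |f| := lt_of_lt_of_le (by positivity) hf1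
  have hfne : f ≠ 0 := abs_pos.1 hf0
  -- powers on the interval
  have hpow : ∀ X : ℝ, (M : ℝ) ≤ X → X ≤ 2 * M + 1 →
      min 1 ((3 : ℝ) ^ E) * (M : ℝ) ^ E ≤ X ^ E ∧ X ^ E ≤ max 1 ((3 : ℝ) ^ E) * (M : ℝ) ^ E := by
    intro X hX1 hX2
    have hXp : 0 < X := by linarith
    have hX : X = (X / M) * M := by field_simp
    have hr1 : 1 ≤ X / M := by rw [le_div_iff₀ hMp]; linarith
    have hr2 : X / M ≤ 3 := by rw [div_le_iff₀ hMp]; linarith
    have hmul : X ^ E = (X / M) ^ E * (M : ℝ) ^ E := by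
      rw [← Real.mul_rpow (by positivity) hMp.le, div_mul_cancel₀ _ hMp.ne']
    rw [hmul]
    have hME : 0 < (M : ℝ) ^ E := by positivity
    rcases le_total 0 E with hE0 | hE0
    · have g1 : 1 ≤ (X / M) ^ E := Real.one_le_rpow hr1 hE0
      have g2 : (X / M) ^ E ≤ (3 : ℝ) ^ E := Real.rpow_le_rpow (by linarith) hr2 hE0
      constructor
      · gcongr; exact (min_le_left _ _).trans g1
      · gcongr; exact g2.trans (le_max_right _ _)
    · have g1 : (X / M) ^ E ≤ 1 := Real.rpow_le_one_of_one_le_of_nonpos hr1 hE0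
      have g2 : (3 : ℝ) ^ E ≤ (X / M) ^ E :=
        Real.rpow_le_rpow_of_nonpos (by linarith) hr2 hE0
      constructor
      · gcongr; exact (min_le_right _ _).trans g2
      · gcongr; exact g1.trans (le_max_left _ _)
  set ψ : ℕ → ℝ → ℝ := fun m X => φ m X + (derivative^[m] R).eval X / f with hψ
  have hdR : ∀ j, d + 1 ≤ j → derivative^[j] R = 0 := by
    intro j hj
    exact Polynomial.iterate_derivative_eq_zero (by omega)
  have hψK : ∀ j, d + 1 ≤ j → ∀ X, ψ j X = φ j X := by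
    intro j hj X
    simp only [hψ, hdR j hj]
    simp
  have hder : ∀ j, ∀ X ∈ Set.Icc ((M : ℝ)) (2 * M + 1), HasDerivAt (ψ j) (ψ (j + 1) X) X := by
    intro j X hX
    have h4 : HasDerivAt (fun X => (derivative^[j] R).eval X) ((derivative^[j + 1] R).eval X) X := by
      rw [Function.iterate_succ_apply']
      exact (derivative^[j] R).hasDerivAt X
    exact (hφ.der j X (by linarith [hX.1])).add (h4.div_const f)
  have hMK : (M : ℝ) ^ E = (M : ℝ) ^ (-α) * (M : ℝ) ^ (-((K : ℝ) + 1)) := by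
    rw [← Real.rpow_add hMp, hE]
    congr 1
    push_cast
    ring
  have hME : 0 < (M : ℝ) ^ E := by positivity
  have key := hM0 M hMM0 (M : ℝ) (2 * M + 1) (c' * (M : ℝ) ^ E) (C' * (M : ℝ) ^ E) ψ (by positivity)
    hder
    (by
      intro X hX
      rw [hψK (K + 1) (by omega)]
      have h4 := (h1 X (hMx1.trans hX.1)).1
      have h5 := (hpow X hX.1 hX.2).1
      calc c' * (M : ℝ) ^ E = c * (min 1 ((3 : ℝ) ^ E) * (M : ℝ) ^ E) := by rw [hc']; ring
        _ ≤ c * X ^ E := by gcongr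
        _ ≤ _ := h4)
    (by
      intro X hX
      rw [hψK (K + 1) (by omega)]
      have h4 := (h1 X (hMx1.trans hX.1)).2
      have h5 := (hpow X hX.1 hX.2).2
      calc |φ (K + 1) X| ≤ C * X ^ E := h4
        _ ≤ C * (max 1 ((3 : ℝ) ^ E) * (M : ℝ) ^ E) := by gcongr
        _ = _ := by rw [hC']; ring)
    (by
      intro X hX
      rw [hψK (K + 2) (by omega)]
      have h4 := (h2 X (hMx2.trans hX.1)).1
      have hXp : 0 < X := by linarith [hX.1]
      have h7 : 0 < c2 * X ^ (-α - ((K + 2 : ℕ) : ℝ)) := by positivity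
      exact abs_pos.1 (lt_of_lt_of_le h7 h4))
    f ((M : ℝ) + 1) M le_rfl le_rfl (by linarith) hfne
    (by
      rw [div_le_iff₀ hc'0] at hq3
      calc C' * (M : ℝ) ^ E ≤ ((M : ℝ) ^ (μ / 4) * c') * (M : ℝ) ^ E := by gcongr
        _ = _ := by ring)
    (by
      have h3 : |f| * (c' * (M : ℝ) ^ E) ≤ (M : ℝ) ^ A * ((M : ℝ) ^ (1 / 2 : ℝ) * (M : ℝ) ^ E) := by
        gcongr
      refine h3.trans ?_
      rw [hMK, ← Real.rpow_add hMp, ← Real.rpow_add hMp, ← Real.rpow_add hMp]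
      apply Real.rpow_le_rpow_of_exponent_le hMR
      linarith)
    (by
      have h3 : (M : ℝ) ^ (α + δ) * (c' * (M : ℝ) ^ E) ≤ |f| * (c' * (M : ℝ) ^ E) := by
        gcongr
      refine le_trans ?_ h3
      have h4 : (M : ℝ) ^ (-μ) ≤ c' := by
        rw [Real.rpow_neg hMp.le]
        rw [div_le_iff₀ hc'0] at hq4
        rw [inv_le_iff_one_le_mul₀ (by positivity)]
        linarith
      have h5 : (M : ℝ) ^ (-((K : ℝ) + 1) + μ) ≤
          (M : ℝ) ^ (α + δ) * ((M : ℝ) ^ (-μ) * ((M : ℝ) ^ (-α) * (M : ℝ) ^ (-((K : ℝ) + 1)))) := by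
        rw [← Real.rpow_add hMp, ← Real.rpow_add hMp, ← Real.rpow_add hMp]
        apply Real.rpow_le_rpow_of_exponent_le hMR
        linarith
      refine h5.trans ?_
      rw [hMK]
      gcongr)
  refine le_trans (le_of_eq ?_) key
  congr 1
  have e1 : ∀ a b : ℕ, ∀ F : ℕ → ℂ, ∑ m ∈ Finset.Ioc a (a + b), F m = ∑ n ∈ range b, F (a + 1 + n) := by
    intro a b F
    induction b with
    | zero => simp
    | succ b ih =>
      rw [sum_range_succ, ← ih, ← Nat.add_assoc, Finset.sum_Ioc_succ_top (by omega)]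
      congr 2
      omega
  rw [two_mul, e1]
  refine sum_congr rfl fun n _ => ?_
  congr 1
  simp only [hψ, Function.iterate_zero, id]
  rw [mul_add]
  push_cast
  congr 1
  field_simp


open Classical in
/-- **square root bounds for almost all values** -/
theorem sqrt_seq {α x0 : ℝ} {m0 : ℕ} {φ : ℕ → ℝ → ℝ} (hφ : RegL α m0 x0 φ) (B d : ℕ)
    (δ A W ε κ : ℝ) (hδ : 0 < δ) (hε : 0 < ε) :
    ∃ q0 : ℕ, ∀ q : ℕ, q0 ≤ q → ∀ (ω : ℝ) (R : ℝ[X]), R.natDegree ≤ d → 1 ≤ |ω| →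
      |ω| ≤ (q : ℝ) ^ W →
      (((Finset.Ioc q (2 * q)).filter (fun n : ℕ => ¬ ∀ b : ℕ, 2 ≤ b → b ≤ B →
        ∀ s N : ℕ, (q : ℝ) ^ (α + δ) ≤ (b : ℝ) ^ s → (b : ℝ) ^ (s + N) ≤ (q : ℝ) ^ A →
        ∀ u v : ℝ, 0 ≤ u → u ≤ v → v ≤ 1 →
        |(((Finset.range N).filter (fun i =>
            u ≤ Int.fract ((b : ℝ) ^ (s + i) * (ω * φ 0 n + R.eval (n : ℝ))) ∧
            Int.fract ((b : ℝ) ^ (s + i) * (ω * φ 0 n + R.eval (n : ℝ))) < v)).card : ℝ) -
          N * (v - u)| ≤ (Real.log q) ^ ε * √(1 + N * (v - u)))).card : ℝ) ≤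
        q * (Real.log q) ^ (-κ) := by
  set A' : ℝ := max A 0 with hA'
  have hA'0 : 0 ≤ A' := le_max_right _ _
  have hAA' : A ≤ A' := le_max_left _ _
  set α' : ℝ := max (α + δ) 0 with hα'
  have hα0 : 0 ≤ α' := le_max_right _ _
  have hαδ : α + δ ≤ α' := le_max_left _ _
  obtain ⟨ρ, hρ, H1, hH1⟩ := sum_RegL hφ d ((1 + 1 + A') + (α' + 1) + W) δ hδ
  have hbase : ∀ b : ℕ, 2 ≤ b → ∃ M0 : ℕ, ∀ M : ℕ, M0 ≤ M → ∀ (T : Finset ℕ) (y : ℕ → ℝ) (s0 : ℕ),
      T.Nonempty → (∀ l : ℤ, l ≠ 0 → |(l : ℝ)| ≤ (M : ℝ) ^ (1 + 1 + A') →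
        ‖∑ m ∈ T, e (l * (b : ℝ) ^ s0 * y m)‖ ≤ T.card * (M : ℝ) ^ (-ρ)) →
      ((T.filter (fun m => ¬ SqW b s0
        (s0 + A' / Real.log b * Real.log M) ((Real.log M) ^ ε) (y m))).card : ℝ) ≤
        (Real.log M) ^ (-(κ + 1)) * T.card := by
    intro b hb
    have hbR : (2 : ℝ) ≤ b := by exact_mod_cast hb
    have hlogb : 0 < Real.log b := Real.log_pos (by linarith)
    exact sqrt_T hb hε hρ (by rw [div_mul_cancel₀ _ hlogb.ne'])
  choose! M0 hM0 using hbase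
  have hlog : Tendsto (fun M : ℕ => Real.log (M : ℝ)) atTop atTop :=
    Real.tendsto_log_atTop.comp tendsto_natCast_atTop_atTop
  obtain ⟨H2, hH2⟩ := eventually_atTop.1 (hlog.eventually_ge_atTop ((B : ℝ) + 1))
  obtain ⟨H4, hH4⟩ := eventually_atTop.1
    (Pool.Agent.Y933.KD.VdC.ev_le (B : ℝ) 1 one_pos)
  refine ⟨max (max H1 H2) (max (max (∑ b ∈ Finset.range (B + 1), M0 b) H4) 2),
    fun H hH ω R hR hω1 hω2 => ?_⟩
  have hHa : H1 ≤ H := le_of_max_le_left (le_of_max_le_left hH)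
  have hHb : H2 ≤ H := le_of_max_le_right (le_of_max_le_left hH)
  have hHc : ∑ b ∈ Finset.range (B + 1), M0 b ≤ H :=
    le_of_max_le_left (le_of_max_le_left (le_of_max_le_right hH))
  have hHe : H4 ≤ H := le_of_max_le_right (le_of_max_le_left (le_of_max_le_right hH))
  have hHd : 2 ≤ H := le_of_max_le_right (le_of_max_le_right hH)
  have hHR : (2 : ℝ) ≤ H := by exact_mod_cast hHd
  have hH1R : (1 : ℝ) ≤ H := by linarith
  have hHp : (0 : ℝ) < H := by linarith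
  have hBH : (B : ℝ) ≤ (H : ℝ) ^ (1 : ℝ) := hH4 H hHe
  have hlogH : (B : ℝ) + 1 ≤ Real.log H := hH2 H hHb
  have hlogp : 0 < Real.log H := Real.log_pos (by linarith)
  set T : Finset ℕ := Finset.Ioc H (2 * H) with hT
  have hcardT : (T.card : ℝ) = H := by
    rw [hT, Nat.card_Ioc]
    congr 1
    omega
  have hTne : T.Nonempty := by
    rw [hT, Finset.nonempty_Ioc]
    omega
  set y : ℕ → ℝ := fun n => ω * φ 0 n + R.eval (n : ℝ) with hy
  -- the exceptional sets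
  set s0 : ℕ → ℕ := fun b => ⌈(α + δ) * Real.log H / Real.log b⌉₊ with hs0
  set Ex : ℕ → Finset ℕ := fun b => T.filter (fun n => ¬ SqW b (s0 b)
    ((s0 b : ℝ) + A' / Real.log b * Real.log H) ((Real.log H) ^ ε) (y n)) with hEx
  have hExc : ∀ b ∈ Finset.Icc 2 B, ((Ex b).card : ℝ) ≤ (Real.log H) ^ (-(κ + 1)) * T.card := by
    intro b hb
    rw [Finset.mem_Icc] at hb
    have hbR : (2 : ℝ) ≤ b := by exact_mod_cast hb.1
    have hlogb : 0 < Real.log b := Real.log_pos (by linarith)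
    have hM0b : M0 b ≤ H := (Finset.single_le_sum (f := M0) (fun _ _ => Nat.zero_le _)
      (Finset.mem_range.2 (by omega))).trans hHc
    refine hM0 b hb.1 H hM0b T y (s0 b) hTne ?_
    intro l hl hl2
    have hbs : (0 : ℝ) < (b : ℝ) ^ s0 b := by positivity
    have hl1 : (1 : ℝ) ≤ |(l : ℝ)| := by
      have : (1 : ℤ) ≤ |l| := Int.one_le_abs hl
      exact_mod_cast this
    have hbs1 : (H : ℝ) ^ (α + δ) ≤ (b : ℝ) ^ s0 b := by
      have h1 : (α + δ) * Real.log H ≤ s0 b * Real.log b := by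
        rw [← div_le_iff₀ hlogb]
        exact Nat.le_ceil _
      rw [Real.rpow_def_of_pos hHp, ← Real.exp_log hbs, Real.log_pow]
      apply Real.exp_le_exp.2
      linarith
    have hbs2 : (b : ℝ) ^ s0 b ≤ (H : ℝ) ^ (α' + 1) := by
      have h1 : (s0 b : ℝ) * Real.log b ≤ α' * Real.log H + Real.log b := by
        have h2 : (s0 b : ℝ) ≤ α' * Real.log H / Real.log b + 1 := by
          have h4 : s0 b ≤ ⌈α' * Real.log H / Real.log b⌉₊ := by
            rw [hs0]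
            apply Nat.ceil_le_ceil
            gcongr
          have h5 : (s0 b : ℝ) ≤ ⌈α' * Real.log H / Real.log b⌉₊ := by exact_mod_cast h4
          exact h5.trans (Nat.ceil_lt_add_one (by positivity)).le
        calc (s0 b : ℝ) * Real.log b ≤ (α' * Real.log H / Real.log b + 1) * Real.log b := by gcongr
          _ = _ := by field_simp
      have h3 : Real.log b ≤ Real.log H := by
        apply Real.log_le_log (by linarith)
        have : (b : ℝ) ≤ B := by exact_mod_cast hb.2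
        rw [Real.rpow_one] at hBH
        linarith
      rw [Real.rpow_def_of_pos hHp, ← Real.exp_log hbs, Real.log_pow]
      apply Real.exp_le_exp.2
      nlinarith
    have key := hH1 H hHa ((l : ℝ) * (b : ℝ) ^ s0 b * ω)
      (Polynomial.C ((l : ℝ) * (b : ℝ) ^ s0 b) * R) ((natDegree_C_mul_le _ _).trans hR)
      (by
        rw [abs_mul, abs_mul, abs_of_pos hbs]
        calc (H : ℝ) ^ (α + δ) ≤ (b : ℝ) ^ s0 b := hbs1
          _ = 1 * (b : ℝ) ^ s0 b * 1 := by ring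
          _ ≤ |(l : ℝ)| * (b : ℝ) ^ s0 b * |ω| := by gcongr)
      (by
        rw [abs_mul, abs_mul, abs_of_pos hbs]
        calc |(l : ℝ)| * (b : ℝ) ^ s0 b * |ω| ≤
            (H : ℝ) ^ (1 + 1 + A') * (H : ℝ) ^ (α' + 1) * (H : ℝ) ^ W := by gcongr
          _ = (H : ℝ) ^ ((1 + 1 + A') + (α' + 1) + W) := by
              rw [← Real.rpow_add hHp, ← Real.rpow_add hHp])
    have e1 : ∑ m ∈ T, e (l * (b : ℝ) ^ s0 b * y m) =
        ∑ n ∈ T, e ((l : ℝ) * (b : ℝ) ^ s0 b * ω * φ 0 n +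
          (Polynomial.C ((l : ℝ) * (b : ℝ) ^ s0 b) * R).eval (n : ℝ)) := by
      refine sum_congr rfl fun n _ => ?_
      congr 1
      rw [Polynomial.eval_mul, Polynomial.eval_C, hy]
      ring
    rw [e1, hcardT]
    refine key.trans (le_of_eq ?_)
    rw [sub_eq_add_neg, Real.rpow_add hHp, Real.rpow_one]
  have hsub : T.filter (fun n : ℕ => ¬ ∀ b : ℕ, 2 ≤ b → b ≤ B →
        ∀ s N : ℕ, (H : ℝ) ^ (α + δ) ≤ (b : ℝ) ^ s → (b : ℝ) ^ (s + N) ≤ (H : ℝ) ^ A →
        ∀ u v : ℝ, 0 ≤ u → u ≤ v → v ≤ 1 →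
        |(((Finset.range N).filter (fun i =>
            u ≤ Int.fract ((b : ℝ) ^ (s + i) * y n) ∧
            Int.fract ((b : ℝ) ^ (s + i) * y n) < v)).card : ℝ) -
          N * (v - u)| ≤ (Real.log H) ^ ε * √(1 + N * (v - u))) ⊆
      (Finset.Icc 2 B).biUnion Ex := by
    intro n hn
    rw [Finset.mem_filter] at hn
    obtain ⟨hn1, hn2⟩ := hn
    simp only [not_forall] at hn2
    obtain ⟨b, hb1, hb2, s, N, hs, hsN, u, v, hu, huv, hv, hbad⟩ := hn2
    rw [Finset.mem_biUnion]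
    refine ⟨b, Finset.mem_Icc.2 ⟨hb1, hb2⟩, ?_⟩
    rw [hEx, Finset.mem_filter]
    refine ⟨hn1, fun hgood => hbad ?_⟩
    have hbR : (2 : ℝ) ≤ b := by exact_mod_cast hb1
    have hlogb : 0 < Real.log b := Real.log_pos (by linarith)
    have hss : s0 b ≤ s := by
      rw [hs0]
      apply Nat.ceil_le.2
      rw [div_le_iff₀ hlogb]
      have h1 := Real.log_le_log (by positivity) hs
      rw [Real.log_pow, Real.log_rpow hHp] at h1
      exact h1
    have hsN' : (s : ℝ) + N ≤ (s0 b : ℝ) + A' / Real.log b * Real.log H := by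
      have h1 := Real.log_le_log (by positivity) hsN
      rw [Real.log_pow, Real.log_rpow hHp] at h1
      push_cast at h1
      have h2 : (s : ℝ) + N ≤ A' / Real.log b * Real.log H := by
        rw [div_mul_eq_mul_div, le_div_iff₀ hlogb]
        calc ((s : ℝ) + N) * Real.log b ≤ A * Real.log H := h1
          _ ≤ A' * Real.log H := by gcongr
      have h3 : (0 : ℝ) ≤ s0 b := Nat.cast_nonneg _
      linarith
    exact hgood s N hss hsN' u v hu huv hv
  have hcard : ((T.filter (fun n : ℕ => ¬ ∀ b : ℕ, 2 ≤ b → b ≤ B →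
        ∀ s N : ℕ, (H : ℝ) ^ (α + δ) ≤ (b : ℝ) ^ s → (b : ℝ) ^ (s + N) ≤ (H : ℝ) ^ A →
        ∀ u v : ℝ, 0 ≤ u → u ≤ v → v ≤ 1 →
        |(((Finset.range N).filter (fun i =>
            u ≤ Int.fract ((b : ℝ) ^ (s + i) * y n) ∧
            Int.fract ((b : ℝ) ^ (s + i) * y n) < v)).card : ℝ) -
          N * (v - u)| ≤ (Real.log H) ^ ε * √(1 + N * (v - u)))).card : ℝ) ≤
      ∑ b ∈ Finset.Icc 2 B, ((Ex b).card : ℝ) := by
    have h2 : ((Finset.Icc 2 B).biUnion Ex).card ≤ ∑ b ∈ Finset.Icc 2 B, (Ex b).card :=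
      Finset.card_biUnion_le
    exact_mod_cast (Finset.card_le_card hsub).trans h2
  refine hcard.trans ((Finset.sum_le_sum hExc).trans ?_)
  rw [Finset.sum_const, nsmul_eq_mul, hcardT]
  have h1 : ((Finset.Icc 2 B).card : ℝ) ≤ Real.log H := by
    have h2 : (Finset.Icc 2 B).card ≤ B + 1 := by rw [Nat.card_Icc]; omega
    have h3 : ((Finset.Icc 2 B).card : ℝ) ≤ B + 1 := by exact_mod_cast h2
    linarith
  calc ((Finset.Icc 2 B).card : ℝ) * ((Real.log H) ^ (-(κ + 1)) * H)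
      ≤ Real.log H * ((Real.log H) ^ (-(κ + 1)) * H) := by gcongr
    _ = H * (Real.log H) ^ (-κ) := by
        rw [← mul_assoc, mul_comm (H : ℝ)]
        congr 1
        nth_rw 1 [← Real.rpow_one (Real.log H)]
        rw [← Real.rpow_add hlogp]
        congr 1
        ring

end Pool.Agent.W5h30.An
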