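import Pool.Agent.W5h30.An.Fam
import Pool.Agent.W5h30.An.Clt

/-!
# Exponential sums over all values at the rational points with a given denominator
-/

set_option autoImplicit false

namespace Pool.Agent.W5h30.An

open Finset Real Filter Topology Polynomial MeasureTheory
open Pool.Agent.H469R2.NK (e norm_e e_add norm_sum_neg)

theorem sum_TT {g : ℝ → ℝ} {u v : ℝ} (huv : u < v) (hg : AnalyticOnNhd ℝ g (Set.Icc u v))
    (hne : ∀ x ∈ Set.Icc u v, ∀ m, ¬ ∀ᶠ t in 𝓝 x, iteratedDeriv m g t = 0) (d : ℕ) (A : ℝ) {δ : ℝ}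
    (hδ : 0 < δ) :
    ∃ ρ : ℝ, 0 < ρ ∧ ∃ q0 : ℕ, ∀ M : ℕ, q0 ≤ M → (TT u v M).Nonempty ∧
      ∀ (f : ℝ) (R : ℝ[X]), R.natDegree ≤ d → (M : ℝ) ^ δ ≤ |f| → |f| ≤ (M : ℝ) ^ A →
      ‖∑ a ∈ TT u v M, e (f * g ((a : ℝ) / M) + R.eval (a : ℝ))‖ ≤
        (TT u v M).card * (M : ℝ) ^ (-ρ) := by
  obtain ⟨ρ0, hρ0, C0, hC0, q0, hS⟩ := glob huv.le hg hne d A δ hδ
  set ρ : ℝ := min ρ0 1 / 2 with hρ
  have hρp : 0 < ρ := by positivity
  have hρ1 : 2 * ρ ≤ ρ0 := by rw [hρ]; linarith [min_le_left ρ0 1]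
  have hρ2 : 2 * ρ ≤ 1 := by rw [hρ]; linarith [min_le_right ρ0 1]
  have hvu : 0 < v - u := by linarith
  obtain ⟨M1, hM1⟩ := eventually_atTop.1
    ((Pool.Agent.Y933.KD.VdC.ev_le (2 / (v - u) * (C0 + 1)) ρ hρp).and
    (Pool.Agent.Y933.KD.VdC.ev_le (2 / (v - u)) 1 one_pos))
  refine ⟨ρ, hρp, max (max q0 M1) 1, ?_⟩
  intro M hM
  have hMq0 : q0 ≤ M := le_of_max_le_left (le_of_max_le_left hM)
  have hMM1 : M1 ≤ M := le_of_max_le_right (le_of_max_le_left hM)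
  have hM1' : 1 ≤ M := le_of_max_le_right hM
  have hMR : (1 : ℝ) ≤ M := by exact_mod_cast hM1'
  have hMp : (0 : ℝ) < M := by linarith
  obtain ⟨hbig1, hbig2⟩ := hM1 M hMM1
  rw [Real.rpow_one] at hbig2
  have hcard : (v - u) / 2 * M ≤ (TT u v M).card := by
    have h1 := card_TT_ge u v M
    have h2 : 2 ≤ M * (v - u) := by rwa [div_le_iff₀ hvu] at hbig2
    linarith
  have hcard0 : (0 : ℝ) < (TT u v M).card := by
    have : 0 < (v - u) / 2 * M := by positivity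
    linarith
  have hTne : (TT u v M).Nonempty := by
    rw [← Finset.card_pos]
    exact_mod_cast hcard0
  refine ⟨hTne, ?_⟩
  intro f R hR hf1 hf2
  have hNN : ⌈u * M⌉ ≤ ⌊v * M⌋ := by
    have := hTne
    unfold TT at this
    rwa [Finset.nonempty_Icc] at this
  have key := hS M hMq0 f R hR hf1 hf2 ⌈u * M⌉ ⌊v * M⌋ hNN (Int.le_ceil _) (Int.floor_le _)
  have hsum : ‖∑ a ∈ TT u v M, e (f * g ((a : ℝ) / M) + R.eval (a : ℝ))‖ ≤
      1 + C0 * (M : ℝ) ^ (1 - ρ0) := by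
    have h1 : TT u v M = insert ⌈u * M⌉ (Finset.Ioc ⌈u * M⌉ ⌊v * M⌋) := by
      unfold TT
      ext a
      rw [Finset.mem_insert, Finset.mem_Icc, Finset.mem_Ioc]
      omega
    rw [h1, Finset.sum_insert (by rw [Finset.mem_Ioc]; omega)]
    refine (norm_add_le _ _).trans ?_
    rw [norm_e]
    linarith
  refine hsum.trans ?_
  have e3 : 1 ≤ (M : ℝ) ^ (1 - 2 * ρ) := Real.one_le_rpow hMR (by linarith)
  have e4 : (M : ℝ) ^ (1 - ρ0) ≤ (M : ℝ) ^ (1 - 2 * ρ) :=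
    Real.rpow_le_rpow_of_exponent_le hMR (by linarith)
  have e5 : (2 / (v - u) * (C0 + 1)) * (M : ℝ) ^ (1 - 2 * ρ) ≤ (M : ℝ) ^ ρ * (M : ℝ) ^ (1 - 2 * ρ) := by
    gcongr
  have e6 : (M : ℝ) ^ ρ * (M : ℝ) ^ (1 - 2 * ρ) = M * (M : ℝ) ^ (-ρ) := by
    nth_rewrite 3 [← Real.rpow_one (M : ℝ)]
    rw [← Real.rpow_add hMp, ← Real.rpow_add hMp]
    congr 1
    ring
  calc 1 + C0 * (M : ℝ) ^ (1 - ρ0) ≤ (C0 + 1) * (M : ℝ) ^ (1 - 2 * ρ) := by nlinarith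
    _ = (v - u) / 2 * ((2 / (v - u) * (C0 + 1)) * (M : ℝ) ^ (1 - 2 * ρ)) := by
        field_simp
    _ ≤ (v - u) / 2 * (M * (M : ℝ) ^ (-ρ)) := by
        rw [← e6]
        gcongr
    _ = (v - u) / 2 * M * (M : ℝ) ^ (-ρ) := by ring
    _ ≤ (TT u v M).card * (M : ℝ) ^ (-ρ) := by gcongr

end Pool.Agent.W5h30.An
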